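import Pool.Agent.P.MP_fcd401_al.Upper

set_option autoImplicit false

namespace Pool.Agent.P.MP_fcd401_al

open Equiv Finset

variable {O : Type} [Fintype O] [DecidableEq O]

open Classical in
theorem card_fibre_le [Nonempty O] (β : ℝ) (t a q : Perm O) (hq : q ^ 4 = 1) :
    #(univ.filter fun x : Gen → Perm O => Good β x ∧ (x gt, x ga, x gq) = (t, a, q)) ≤
      2 ^ (106 * Fintype.card O) * Fintype.card O ^ (70 * #(reps (rho t a q)) +
        #(reps (rep (Subgroup.closure {a}))) +
        106 * min (Fintype.card O / 3) (#(q * q).support / 2)) := by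
  let W1 : Finset (Perm O) := univ.filter fun s => ∀ g ∈ lgen t a q, g * s = s * g
  let W2 : Finset (Perm O) := univ.filter fun s => ∀ g ∈ ({a} : Set (Perm O)), g * s = s * g
  let W3 : Finset (Perm O) := univ.filter fun w => w ^ 3 = 1 ∧ (q * q) * w * (q * q) * w = 1
  have c1 : #W1 ≤ Fintype.card O ^ #(reps (rho t a q)) :=
    card_centralizer_le_reps _ W1 (fun s hs => (mem_filter.1 hs).2)
  have c2 : #W2 ≤ Fintype.card O ^ #(reps (rep (Subgroup.closure {a}))) :=
    card_centralizer_le_reps _ W2 (fun s hs => (mem_filter.1 hs).2)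
  have c3 : #W3 ≤ 2 ^ Fintype.card O *
      Fintype.card O ^ (min (Fintype.card O / 3) (#(q * q).support / 2)) := by
    refine card_gadget_le (q * q) ?_ W3 (fun w hw => (mem_filter.1 hw).2) _ ?_
    · rw [← hq]; simp [pow_succ, mul_assoc]
    · intro z h1 h2
      omega
  have hc : #(univ.filter fun x : Gen → Perm O => Good β x ∧ (x gt, x ga, x gq) = (t, a, q)) ≤
      #(Fintype.piFinset (fun _ : Fin 70 => W1) ×ˢ (W2 ×ˢ Fintype.piFinset (fun _ : Fin 106 => W3))) := by
    refine card_le_card_of_injOn (fun x => (fun k => x (gs k), x gz, fun k => x (gw k))) ?_ ?_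
    · intro x hx
      simp only [coe_filter, mem_univ, true_and, Set.mem_ofPred_eq, Prod.mk.injEq] at hx
      obtain ⟨hg, rfl, rfl, rfl⟩ := hx
      simp only [coe_product, Set.mem_prod, mem_coe, Fintype.mem_piFinset, W1, W2, W3, mem_filter,
        mem_univ, true_and]
      refine ⟨fun k => ?_, ?_, fun k => ⟨hg.w3 k, hg.wu k⟩⟩
      · rintro g ⟨i, rfl | rfl⟩
        · exact hg.sa k i
        · exact hg.sq k i
      · rintro g rfl
        exact hg.za
    · intro x hx y hy he
      simp only [coe_filter, mem_univ, true_and, Set.mem_ofPred_eq, Prod.mk.injEq] at hx hy he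
      obtain ⟨_, x1, x2, x3⟩ := hx
      obtain ⟨_, y1, y2, y3⟩ := hy
      obtain ⟨e1, e2, e3⟩ := he
      funext s
      rcases s with s | k | u | k
      · fin_cases s
        · exact x1.trans y1.symm
        · exact x2.trans y2.symm
        · exact x3.trans y3.symm
      · exact congrFun e1 k
      · exact e2
      · exact congrFun e3 k
  refine hc.trans ?_
  rw [card_product, card_product, Fintype.card_piFinset_const, Fintype.card_piFinset_const]
  calc _ ≤ (Fintype.card O ^ #(reps (rho t a q))) ^ 70 *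
        (Fintype.card O ^ #(reps (rep (Subgroup.closure {a}))) * (2 ^ Fintype.card O *
      Fintype.card O ^ (min (Fintype.card O / 3) (#(q * q).support / 2))) ^ 106) :=
        Nat.mul_le_mul (Nat.pow_le_pow_left c1 _) (Nat.mul_le_mul c2 (Nat.pow_le_pow_left c3 _))
    _ = _ := by ring

theorem sol_upper [Nonempty O] (β : ℝ) (h0 : 0 ≤ β) (h1 : β ≤ 1) :
    (Sol (Rel β) O).ncard ≤ (Fintype.card O + 1) * (2 ^ (113 * Fintype.card O) *
      Fintype.card O ^ ⌊(72 + β / 3) * Fintype.card O⌋₊) := by
  classical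
  set n := Fintype.card O with hn
  set E := ⌊(72 + β / 3) * n⌋₊ with hE
  have hnpos : 0 < n := Fintype.card_pos
  have e0 : (Sol (Rel β) O).ncard = #(univ.filter fun x : Gen → Perm O => Good β x) := by
    rw [← Set.ncard_coe_finset]
    congr 1
    ext x
    simp [mem_sol_iff]
  rw [e0]
  let f : (Gen → Perm O) → ℕ := fun x => #(big (rho (x gt) (x ga) (x gq)))
  have e1 : #(univ.filter fun x : Gen → Perm O => Good β x) =
      ∑ b ∈ range (n + 1), #((univ.filter fun x : Gen → Perm O => Good β x).filter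
        fun x => f x = b) := by
    refine card_eq_sum_card_fiberwise ?_
    intro x _
    simp only [coe_range, Set.mem_Iio]
    exact Nat.lt_succ_of_le (card_le_univ _)
  rw [e1]
  refine (sum_le_card_nsmul _ _ (2 ^ (113 * n) * n ^ E) ?_).trans (by simp)
  intro b hb
  have hbn : b ≤ n := Nat.lt_succ_iff.1 (mem_range.1 hb)
  have hE4 : 3 * b + n ≤ E := by
    apply Nat.le_floor
    have : (b : ℝ) ≤ n := by exact_mod_cast hbn
    have h3 : (0 : ℝ) ≤ n := Nat.cast_nonneg _
    push_cast
    nlinarith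
  let T : Finset (Perm O × Perm O × Perm O) := univ.filter fun τ =>
    GoodT β τ.1 τ.2.1 τ.2.2 ∧ #(big (rho τ.1 τ.2.1 τ.2.2)) = b
  have hT : #T ≤ (4 ^ n * n ^ b) ^ 3 * (2 ^ n * n ^ n) := by
    refine card_triples_le T (fun τ => rho τ.1 τ.2.1 τ.2.2) b ?_ ?_ ?_ ?_ ?_ ?_
    · intro τ _ x; exact rep_rep _ x
    · intro τ _ x; exact rep_apply _ _ (a_mem _ _ _) x
    · intro τ _ x; exact rep_apply _ _ (q_mem _ _ _) x
    · intro τ _ x; exact rho_t _ _ _ _ _ (rep_rep _ x).symm
    · intro τ _ x; exact card_blk_t _ _ _ x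
    · intro τ hτ; exact (mem_filter.1 hτ).2.2.le
  have h2 := card_le_mul_card_image_of_maps_to
    (f := fun x : Gen → Perm O => (x gt, x ga, x gq))
    (s := (univ.filter fun x : Gen → Perm O => Good β x).filter fun x => f x = b) (t := T)
    (by
      intro x hx
      simp only [mem_filter, mem_univ, true_and, T] at hx ⊢
      exact ⟨hx.1.base, hx.2⟩)
    (2 ^ (106 * n) * n ^ (E - (3 * b + n)))
    (by
      rintro ⟨t, a, q⟩ hτ
      simp only [mem_filter, mem_univ, true_and, T] at hτ
      refine le_trans (card_le_card ?_) ((card_fibre_le β t a q hτ.1.q4).trans ?_)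
      · intro x hx
        simp only [mem_filter, mem_univ, true_and] at hx ⊢
        exact ⟨hx.1.1, hx.2⟩
      · refine Nat.mul_le_mul_left _ (Nat.pow_le_pow_right hnpos ?_)
        have := exponent_le β h0 h1 t a q hτ.1
        rw [hτ.2, ← hn, ← hE] at this
        rw [← hn]
        omega)
  refine h2.trans ((Nat.mul_le_mul_left _ hT).trans (le_of_eq ?_))
  obtain ⟨D, hD⟩ := Nat.exists_eq_add_of_le hE4
  have h4 : (4 : ℕ) ^ n = 2 ^ (2 * n) := by rw [pow_mul]; norm_num
  rw [hD, Nat.add_sub_cancel_left, h4]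
  ring

end Pool.Agent.P.MP_fcd401_al
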