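import Pool.Agent.P.MP_fcd401_al.Lower
import Pool.Agent.P.MP_fcd401_al.UpperCount

set_option autoImplicit false

namespace Pool.Agent.P.MP_fcd401_al

open Filter Topology Finset

theorem log_fact_ge (n : ℕ) : (n : ℝ) * Real.log n - n ≤ Real.log (n.factorial : ℝ) := by
  rcases Nat.eq_zero_or_pos n with rfl | hn
  · simp
  have h := Real.pow_div_factorial_le_exp (n : ℝ) (Nat.cast_nonneg n) n
  have hf : (0 : ℝ) < n.factorial := by exact_mod_cast Nat.factorial_pos n
  have hn' : (0 : ℝ) < n := by exact_mod_cast hn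
  have h2 := Real.log_le_log (by positivity) h
  rw [Real.log_div (by positivity) hf.ne', Real.log_pow, Real.log_exp] at h2
  linarith

theorem log_fact_le (n : ℕ) : Real.log (n.factorial : ℝ) ≤ (n : ℝ) * Real.log n := by
  have hf : (0 : ℝ) < n.factorial := by exact_mod_cast Nat.factorial_pos n
  rw [← Real.log_pow]
  exact Real.log_le_log hf (by exact_mod_cast Nat.factorial_le_pow n)

theorem sg_upper (β : ℝ) (h0 : 0 ≤ β) (h1 : β ≤ 1) (n : ℕ) (hn : 1 ≤ n) :
    sg (Rel β) n ≤ 2 ^ (116 * n) * n ^ ⌊(72 + β / 3) * n⌋₊ := by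
  refine (sg_le_sum _ n).trans ?_
  refine (sum_le_card_nsmul _ _ (n * ((n + 1) * (2 ^ (113 * n) * n ^ ⌊(72 + β / 3) * n⌋₊))) ?_).trans ?_
  · intro k hk
    obtain ⟨hk1, hk2⟩ := mem_Icc.1 hk
    have : Nonempty (Fin k) := ⟨⟨0, hk1⟩⟩
    have h := sol_upper (O := Fin k) β h0 h1
    rw [Fintype.card_fin] at h
    refine Nat.mul_le_mul hk2 (h.trans (Nat.mul_le_mul (by omega) (Nat.mul_le_mul ?_ ?_)))
    · exact Nat.pow_le_pow_right (by norm_num) (by omega)
    · refine (Nat.pow_le_pow_left hk2 _).trans (Nat.pow_le_pow_right hn (Nat.floor_le_floor ?_))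
      have : (k : ℝ) ≤ n := by exact_mod_cast hk2
      exact mul_le_mul_of_nonneg_left this (by linarith)
  · have a1 : n + 1 ≤ 2 ^ n := Nat.lt_two_pow_self
    have a2 : n ≤ 2 ^ n := by omega
    rw [Nat.card_Icc, smul_eq_mul, Nat.add_sub_cancel]
    calc _ ≤ 2 ^ n * (2 ^ n * (2 ^ n * (2 ^ (113 * n) * n ^ ⌊(72 + β / 3) * n⌋₊))) :=
          Nat.mul_le_mul a2 (Nat.mul_le_mul a2 (Nat.mul_le_mul_right _ a1))
      _ = _ := by ring

theorem log_sg_upper (β : ℝ) (h0 : 0 ≤ β) (h1 : β ≤ 1) (n : ℕ) (hn : 1 ≤ n) :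
    Real.log (sg (Rel β) n : ℝ) ≤ 116 * Real.log 2 * n + (72 + β / 3) * (n * Real.log n) := by
  have hn' : (1 : ℝ) ≤ n := by exact_mod_cast hn
  have hl : 0 ≤ Real.log n := Real.log_nonneg hn'
  have h2 : 0 ≤ Real.log 2 := Real.log_nonneg (by norm_num)
  rcases Nat.eq_zero_or_pos (sg (Rel β) n) with h | h
  · rw [h]
    simp only [Nat.cast_zero, Real.log_zero]
    positivity
  have a : (sg (Rel β) n : ℝ) ≤ 2 ^ (116 * n) * (n : ℝ) ^ ⌊(72 + β / 3) * n⌋₊ := by
    exact_mod_cast sg_upper β h0 h1 n hn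
  have b := Real.log_le_log (by exact_mod_cast h) a
  rw [Real.log_mul (by positivity) (by positivity), Real.log_pow, Real.log_pow] at b
  have c : (⌊(72 + β / 3) * n⌋₊ : ℝ) ≤ (72 + β / 3) * n := Nat.floor_le (by positivity)
  have c2 := mul_le_mul_of_nonneg_right c hl
  push_cast at b
  linarith

theorem log_sg_lower (β : ℝ) (d p : ℕ) (hd : 1 ≤ d) (hp : p ≤ d) (hβ : (p : ℝ) ≤ β * d) (n : ℕ)
    (hn : d * 6 ≤ n) :
    ((432 * d + 2 * p : ℕ) : ℝ) * Real.log ((n / (d * 6)).factorial : ℝ) -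
      ((d * 6 : ℕ) : ℝ) * Real.log n ≤ Real.log (sg (Rel β) n : ℝ) := by
  set m := n / (d * 6) with hm
  have hm1 : 1 ≤ m := (Nat.one_le_div_iff (by omega)).2 hn
  have : NeZero m := ⟨by omega⟩
  have : NeZero d := ⟨by omega⟩
  have hmn : m * (d * 6) ≤ n := Nat.div_mul_le_self _ _
  have a1 := sol_lower m d p hp β hβ
  have a2 := sol_le_sg (O := ZMod m × ZMod d × Fin 6) (Rel β) n (by simpa using hmn)
  have a3 : m.factorial ^ (432 * d + 2 * p) ≤ n ^ (d * 6) * sg (Rel β) n :=
    a1.trans (Nat.mul_le_mul (Nat.pow_le_pow_left hmn _) a2)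
  have hf : 0 < m.factorial ^ (432 * d + 2 * p) := pow_pos (Nat.factorial_pos m) _
  have hs : 0 < sg (Rel β) n := by
    rcases Nat.eq_zero_or_pos (sg (Rel β) n) with h | h
    · rw [h] at a3; omega
    · exact h
  have a4 : (m.factorial : ℝ) ^ (432 * d + 2 * p) ≤ (n : ℝ) ^ (d * 6) * sg (Rel β) n := by
    exact_mod_cast a3
  have hn0 : (0 : ℝ) < n := by exact_mod_cast (by omega : 0 < n)
  have hs0 : (0 : ℝ) < sg (Rel β) n := by exact_mod_cast hs
  have a5 := Real.log_le_log (by exact_mod_cast hf) a4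
  rw [Real.log_mul (by positivity) hs0.ne', Real.log_pow, Real.log_pow] at a5
  linarith

theorem tendsto_log_nat : Tendsto (fun n : ℕ => Real.log n) atTop atTop :=
  Real.tendsto_log_atTop.comp tendsto_natCast_atTop_atTop

theorem growth (β : ℝ) (h0 : 0 ≤ β) (h1 : β ≤ 1) :
    Tendsto (fun n : ℕ => Real.log (sg (Rel β) n : ℝ) / Real.log (n.factorial : ℝ)) atTop
      (𝓝 (72 + β / 3)) := by
  have hinv : ∀ c : ℝ, Tendsto (fun n : ℕ => c / Real.log n) atTop (𝓝 0) :=
    fun c => tendsto_log_nat.const_div_atTop c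
  have hinvn : ∀ c : ℝ, Tendsto (fun n : ℕ => c / (n : ℝ)) atTop (𝓝 0) :=
    fun c => tendsto_const_div_atTop_nhds_zero_nat c
  have hl1 : ∀ c : ℝ, ∀ᶠ n : ℕ in atTop, c < Real.log n := fun c =>
    tendsto_log_nat.eventually_gt_atTop c
  refine tendsto_order.2 ⟨fun a ha => ?_, fun b hb => ?_⟩
  · obtain ⟨a', ha1, ha2⟩ := exists_between (max_lt ha (by linarith : (0 : ℝ) < 72 + β / 3))
    have ha3 : a < a' := (le_max_left _ _).trans_lt ha1
    have ha4 : 0 < a' := (le_max_right _ _).trans_lt ha1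
    obtain ⟨d, hd⟩ := exists_nat_gt (1 / (72 + β / 3 - a'))
    have hδ : 0 < 72 + β / 3 - a' := by linarith
    have hd0 : (0 : ℝ) < d := (by positivity : (0 : ℝ) < 1 / (72 + β / 3 - a')).trans hd
    have hd1 : 1 ≤ d := by exact_mod_cast hd0
    rw [div_lt_iff₀ hδ] at hd
    set p := ⌊β * d⌋₊ with hp
    have hp1 : (p : ℝ) ≤ β * d := Nat.floor_le (by positivity)
    have hp2 : β * d < p + 1 := Nat.lt_floor_add_one _
    have hp3 : p ≤ d := by
      have : (p : ℝ) ≤ d := by nlinarith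
      exact_mod_cast this
    set E : ℝ := ((432 * d + 2 * p : ℕ) : ℝ) with hE
    set D : ℝ := ((d * 6 : ℕ) : ℝ) with hD
    have hD0 : 0 < D := by rw [hD]; push_cast; positivity
    have hE0 : 0 ≤ E := Nat.cast_nonneg _
    have hED : a' < E * (1 / D - 0) * (1 - 0) - 0 := by
      simp only [sub_zero, mul_one, mul_one_div]
      rw [lt_div_iff₀ hD0, hE, hD]
      push_cast
      nlinarith
    have ht : Tendsto (fun n : ℕ => E * (1 / D - 1 / (n : ℝ)) *
        (1 - (Real.log (2 * D) + 1) / Real.log n) - D / (n : ℝ)) atTop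
        (𝓝 (E * (1 / D - 0) * (1 - 0) - 0)) :=
      (((tendsto_const_nhds.sub (hinvn 1)).const_mul E).mul
        (tendsto_const_nhds.sub (hinv _))).sub (hinvn D)
    filter_upwards [ht.eventually (lt_mem_nhds hED), hl1 (Real.log (2 * D) + 1), hl1 1,
      eventually_ge_atTop (2 * (d * 6))] with n e1 e2 e3 e4
    have hn0 : (0 : ℝ) < n := by exact_mod_cast (by omega : 0 < n)
    have hlf : 0 < Real.log (n.factorial : ℝ) := by
      have := log_fact_ge n
      nlinarith
    rw [lt_div_iff₀ hlf]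
    have b1 := log_sg_lower β d p hd1 hp3 hp1 n (by omega)
    rw [← hE, ← hD] at b1
    set m := n / (d * 6) with hm
    have b2 := log_fact_ge m
    have b3 := log_fact_le n
    have hm1 : (n : ℝ) / D - 1 ≤ m := by
      have h5 : n < (m + 1) * (d * 6) := by
        rw [mul_comm]
        exact Nat.lt_mul_div_succ n (by omega)
      have h6 : (n : ℝ) < (m + 1) * D := by rw [hD]; exact_mod_cast h5
      rw [sub_le_iff_le_add, div_le_iff₀ hD0]
      exact h6.le
    have hn2 : 2 * D ≤ n := by rw [hD]; exact_mod_cast e4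
    have hnD : 2 ≤ (n : ℝ) / D := by rw [le_div_iff₀ hD0]; exact hn2
    have hm2 : (n : ℝ) / (2 * D) ≤ m := by
      have : (n : ℝ) / (2 * D) = (n / D) / 2 := by field_simp
      linarith
    have hm3 : Real.log n - Real.log (2 * D) ≤ Real.log m := by
      rw [← Real.log_div hn0.ne' (by positivity)]
      exact Real.log_le_log (by positivity) hm2
    have b4 : ((n : ℝ) / D - 1) * (Real.log n - (Real.log (2 * D) + 1)) ≤
        m * (Real.log m - 1) :=
      mul_le_mul hm1 (by linarith) (by linarith) (Nat.cast_nonneg _)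
    have b5 : (E * (1 / D - 1 / (n : ℝ)) * (1 - (Real.log (2 * D) + 1) / Real.log n) - D / (n : ℝ))
        * (n * Real.log n) =
        E * (((n : ℝ) / D - 1) * (Real.log n - (Real.log (2 * D) + 1))) - D * Real.log n := by
      have : Real.log n ≠ 0 := by linarith
      field_simp
    have b6 := mul_lt_mul_of_pos_right e1 (by positivity : 0 < (n : ℝ) * Real.log n)
    rw [b5] at b6
    have b7 := mul_le_mul_of_nonneg_left b4 hE0
    have b8 := mul_le_mul_of_nonneg_left b2 hE0
    have b9 := mul_le_mul_of_nonneg_left b3 ha4.le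
    have b10 := mul_lt_mul_of_pos_right ha3 hlf
    nlinarith
  · have ht : Tendsto (fun n : ℕ => (116 * Real.log 2 / Real.log n + (72 + β / 3)) /
        (1 - 1 / Real.log n)) atTop (𝓝 ((0 + (72 + β / 3)) / (1 - 0))) :=
      ((hinv _).add tendsto_const_nhds).div (tendsto_const_nhds.sub (hinv 1)) (by norm_num)
    have hb' : (0 + (72 + β / 3)) / (1 - 0) < b := by simpa using hb
    filter_upwards [ht.eventually (gt_mem_nhds hb'), hl1 1, eventually_ge_atTop 1] with n e1 e3 e4
    have hn0 : (0 : ℝ) < n := by exact_mod_cast e4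
    have b2 := log_fact_ge n
    have hlf : 0 < Real.log (n.factorial : ℝ) := by nlinarith
    rw [div_lt_iff₀ hlf]
    have b1 := log_sg_upper β h0 h1 n e4
    have hl0 : 0 < Real.log n := by linarith
    have h3 : 0 < 1 - 1 / Real.log n := by
      rw [sub_pos, div_lt_one hl0]; exact e3
    rw [div_lt_iff₀ h3] at e1
    have b6 := mul_lt_mul_of_pos_right e1 (by positivity : 0 < (n : ℝ) * Real.log n)
    have b7 : (116 * Real.log 2 / Real.log n + (72 + β / 3)) * (n * Real.log n) =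
        116 * Real.log 2 * n + (72 + β / 3) * (n * Real.log n) := by field_simp
    have b8 : b * (1 - 1 / Real.log n) * (n * Real.log n) = b * (n * Real.log n - n) := by
      field_simp
    rw [b7, b8] at b6
    have b9 := mul_le_mul_of_nonneg_left b2 (by linarith : 0 ≤ b)
    linarith

end Pool.Agent.P.MP_fcd401_al
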