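import Mathlib

set_option autoImplicit false

namespace Pool.Agent.P.MP_fcd401_al

open Equiv Finset

variable {O : Type} [Fintype O] [DecidableEq O]

theorem card_le_pow_of_det (W : Finset (Perm O)) (T : Finset O)
    (h : ∀ w ∈ W, ∀ w' ∈ W, (∀ x ∈ T, w x = w' x) → w = w') :
    #W ≤ Fintype.card O ^ #T := by
  have h1 : #W ≤ #(univ : Finset (T → O)) := by
    refine card_le_card_of_injOn (fun w => fun x : T => w x.1) (fun _ _ => mem_univ _) ?_
    intro w hw w' hw' he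
    exact h w hw w' hw' (fun x hx => congrFun he ⟨x, hx⟩)
  simpa using h1

theorem card_le_of_det_var [Nonempty O] (W : Finset (Perm O)) (Z : ℕ)
    (P : Finset O → Perm O → Prop)
    (hex : ∀ w ∈ W, ∃ T, #T ≤ Z ∧ P T w)
    (huniq : ∀ T w w', P T w → P T w' → (∀ x ∈ T, w x = w' x) → w = w') :
    #W ≤ 2 ^ Fintype.card O * Fintype.card O ^ Z := by
  classical
  have hsub : W ⊆ (univ.filter fun T : Finset O => #T ≤ Z).biUnion (fun T => W.filter (P T)) := by
    intro w hw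
    obtain ⟨T, h1, h2⟩ := hex w hw
    simp only [mem_biUnion, mem_filter, mem_univ, true_and]
    exact ⟨T, h1, hw, h2⟩
  refine (card_le_card hsub).trans (card_biUnion_le.trans ?_)
  have hb : ∀ T ∈ (univ.filter fun T : Finset O => #T ≤ Z),
      #(W.filter (P T)) ≤ Fintype.card O ^ Z := by
    intro T hT
    refine (card_le_pow_of_det _ T ?_).trans ?_
    · intro w hw w' hw' he
      exact huniq T w w' (mem_filter.1 hw).2 (mem_filter.1 hw').2 he
    · exact Nat.pow_le_pow_right Fintype.card_pos (mem_filter.1 hT).2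
  refine (sum_le_card_nsmul _ _ _ hb).trans ?_
  rw [smul_eq_mul]
  refine Nat.mul_le_mul_right _ ?_
  refine (card_filter_le _ _).trans ?_
  simp

theorem card_centralizer_le (A : Set (Perm O)) (T : Finset O)
    (hT : ∀ x, ∃ g ∈ Subgroup.closure A, ∃ r ∈ T, g r = x) (W : Finset (Perm O))
    (hW : ∀ s ∈ W, ∀ g ∈ A, g * s = s * g) : #W ≤ Fintype.card O ^ #T := by
  refine card_le_pow_of_det W T ?_
  have hc : ∀ s ∈ W, ∀ g ∈ Subgroup.closure A, g * s = s * g := by
    intro s hs g hg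
    have : Subgroup.closure A ≤ Subgroup.centralizer {s} := by
      rw [Subgroup.closure_le]
      intro g hg
      simp only [SetLike.mem_coe, Subgroup.mem_centralizer_iff, Set.mem_singleton_iff, forall_eq]
      exact (hW s hs g hg).symm
    have h2 := this hg
    simp only [Subgroup.mem_centralizer_iff, Set.mem_singleton_iff, forall_eq] at h2
    exact h2.symm
  intro s hs s' hs' he
  ext x
  obtain ⟨g, hg, r, hr, rfl⟩ := hT x
  have e1 := DFunLike.congr_fun (hc s hs g hg) r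
  have e2 := DFunLike.congr_fun (hc s' hs' g hg) r
  simp only [Perm.mul_apply] at e1 e2
  rw [← e1, ← e2, he r hr]

/-- chosen representative of the orbit -/
noncomputable def rep (H : Subgroup (Perm O)) (x : O) : O :=
  Quotient.out (Quotient.mk (MulAction.orbitRel H O) x)

omit [Fintype O] [DecidableEq O] in
theorem rep_eq_iff (H : Subgroup (Perm O)) (x y : O) :
    rep H x = rep H y ↔ ∃ g ∈ H, g y = x := by
  unfold rep
  rw [Quotient.out_inj, Quotient.eq]
  show x ∈ MulAction.orbit H y ↔ _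
  constructor
  · rintro ⟨g, hg⟩
    exact ⟨g.1, g.2, hg⟩
  · rintro ⟨g, hg, h⟩
    exact ⟨⟨g, hg⟩, h⟩

omit [Fintype O] [DecidableEq O] in
theorem rep_rep (H : Subgroup (Perm O)) (x : O) : rep H (rep H x) = rep H x := by
  unfold rep
  rw [Quotient.out_eq]

omit [Fintype O] [DecidableEq O] in
theorem rep_apply (H : Subgroup (Perm O)) (g : Perm O) (hg : g ∈ H) (x : O) :
    rep H (g x) = rep H x := (rep_eq_iff H _ _).2 ⟨g, hg, rfl⟩

/-- block of a point -/
def blk (ρ : O → O) (x : O) : Finset O := univ.filter fun y => ρ y = ρ x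

/-- the representatives -/
def reps (ρ : O → O) : Finset O := univ.filter fun x => ρ x = x

theorem mem_blk (ρ : O → O) (x y : O) : y ∈ blk ρ x ↔ ρ y = ρ x := by simp [blk]

theorem mem_reps (ρ : O → O) (x : O) : x ∈ reps ρ ↔ ρ x = x := by simp [reps]

theorem blk_congr (ρ : O → O) {x y : O} (h : ρ x = ρ y) : blk ρ x = blk ρ y := by
  unfold blk
  rw [h]

theorem card_centralizer_le_reps (A : Set (Perm O)) (W : Finset (Perm O))
    (hW : ∀ s ∈ W, ∀ g ∈ A, g * s = s * g) :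
    #W ≤ Fintype.card O ^ #(reps (rep (Subgroup.closure A))) := by
  refine card_centralizer_le A _ ?_ W hW
  intro x
  obtain ⟨g, hg, h⟩ := (rep_eq_iff (Subgroup.closure A) x (rep _ x)).1 (rep_rep _ x).symm
  exact ⟨g, hg, _, (mem_reps _ _).2 (rep_rep _ x), h⟩

theorem mul_card_reps_le (ρ : O → O) (hρ : ∀ x, ρ (ρ x) = ρ x) (S : Finset O)
    (hS : ∀ x ∈ S, ∀ y, ρ y = ρ x → y ∈ S) (k : ℕ) (hk : ∀ x ∈ S, k ≤ #(blk ρ x)) :
    k * #(reps ρ ∩ S) ≤ #S := by
  have h1 : #S = ∑ r ∈ reps ρ ∩ S, #(S.filter fun y => ρ y = r) := by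
    refine card_eq_sum_card_fiberwise ?_
    intro y hy
    simp only [coe_inter, Set.mem_inter_iff, mem_coe]
    exact ⟨(mem_reps _ _).2 (hρ y), hS y hy _ (hρ y)⟩
  rw [h1, mul_comm, ← smul_eq_mul]
  refine card_nsmul_le_sum _ _ _ ?_
  intro r hr
  obtain ⟨hr1, hr2⟩ := mem_inter.1 hr
  refine (hk r hr2).trans (card_le_card ?_)
  intro y hy
  rw [mem_blk] at hy
  exact mem_filter.2 ⟨hS r hr2 y hy, hy.trans ((mem_reps _ _).1 hr1)⟩

theorem prod_le_four (c : O → ℕ) (B : Finset O) (h1 : ∀ x, c x ≤ Fintype.card O)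
    (h2 : ∀ x, x ∉ B → c x ≤ 4) :
    ∏ x, c x ≤ 4 ^ Fintype.card O * Fintype.card O ^ #B := by
  have h3 : ∏ x, c x ≤ ∏ x, (4 * if x ∈ B then Fintype.card O else 1) := by
    refine prod_le_prod' ?_
    intro x _
    split_ifs with hx
    · have := h1 x
      omega
    · have := h2 x hx
      omega
  refine h3.trans (le_of_eq ?_)
  rw [prod_mul_distrib, prod_const, prod_ite_mem, univ_inter, prod_const, card_univ]

/-- the points whose block has at least five points -/
def big (ρ : O → O) : Finset O := univ.filter fun x => 5 ≤ #(blk ρ x)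

theorem card_triples_le [Nonempty O] (T : Finset (Perm O × Perm O × Perm O))
    (ρ : Perm O × Perm O × Perm O → O → O) (b : ℕ)
    (hρ : ∀ τ ∈ T, ∀ x, ρ τ (ρ τ x) = ρ τ x)
    (ha : ∀ τ ∈ T, ∀ x, ρ τ (τ.2.1 x) = ρ τ x)
    (hq : ∀ τ ∈ T, ∀ x, ρ τ (τ.2.2 x) = ρ τ x)
    (ht : ∀ τ ∈ T, ∀ x, ρ τ (τ.1 x) = ρ τ (τ.1 (ρ τ x)))
    (ht' : ∀ τ ∈ T, ∀ x, #(blk (ρ τ) (τ.1 x)) ≤ #(blk (ρ τ) x))
    (hb : ∀ τ ∈ T, #(big (ρ τ)) ≤ b) :
    #T ≤ (4 ^ Fintype.card O * Fintype.card O ^ b) ^ 3 *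
      (2 ^ Fintype.card O * Fintype.card O ^ Fintype.card O) := by
  classical
  let f : Perm O × Perm O × Perm O → Finset O × (O → O) := fun τ =>
    (reps (ρ τ), fun x => if ρ τ x = x then τ.1 x else ρ τ x)
  have h := card_le_mul_card_image_of_maps_to (f := f) (s := T) (t := univ)
    (fun _ _ => mem_univ _) ((4 ^ Fintype.card O * Fintype.card O ^ b) ^ 3) ?_
  · simpa using h
  intro z _
  rcases (T.filter fun τ => f τ = z).eq_empty_or_nonempty with he | ⟨τ0, h0⟩
  · rw [he]; simp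
  obtain ⟨h0T, h0z⟩ := mem_filter.1 h0
  have key : ∀ τ ∈ T.filter fun τ => f τ = z,
      ρ τ = ρ τ0 ∧ ∀ x, τ.1 (ρ τ0 x) = τ0.1 (ρ τ0 x) := by
    intro τ hτ
    obtain ⟨hT, hz⟩ := mem_filter.1 hτ
    have e := hz.trans h0z.symm
    have e1 : ∀ x, ρ τ x = x ↔ ρ τ0 x = x := by
      intro x
      rw [← mem_reps, ← mem_reps]
      have := congrArg Prod.fst e
      simp only [f] at this
      rw [this]
    have e2 : ∀ x, (if ρ τ x = x then τ.1 x else ρ τ x) =
        (if ρ τ0 x = x then τ0.1 x else ρ τ0 x) := fun x => congrFun (congrArg Prod.snd e) x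
    refine ⟨?_, ?_⟩
    · ext x
      by_cases hx : ρ τ0 x = x
      · rw [hx, (e1 x).2 hx]
      · have := e2 x
        rwa [if_neg hx, if_neg (fun h => hx ((e1 x).1 h))] at this
    · intro x
      have := e2 (ρ τ0 x)
      rwa [if_pos (hρ τ0 h0T x), if_pos ((e1 _).2 (hρ τ0 h0T x))] at this
  have hcard : #(T.filter fun τ => f τ = z) ≤
      #(Fintype.piFinset (fun x => blk (ρ τ0) (τ0.1 (ρ τ0 x))) ×ˢ
        (Fintype.piFinset (blk (ρ τ0)) ×ˢ Fintype.piFinset (blk (ρ τ0)))) := by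
    refine card_le_card_of_injOn (fun τ => ((τ.1 : O → O), (τ.2.1 : O → O), (τ.2.2 : O → O))) ?_ ?_
    · intro τ hτ
      obtain ⟨k1, k2⟩ := key τ hτ
      have hT := (mem_filter.1 hτ).1
      simp only [coe_product, Set.mem_prod, mem_coe, Fintype.mem_piFinset, mem_blk]
      refine ⟨fun x => ?_, fun x => ?_, fun x => ?_⟩
      · rw [← k2, ← k1]; exact ht τ hT x
      · rw [← k1]; exact ha τ hT x
      · rw [← k1]; exact hq τ hT x
    · intro τ _ τ' _ he
      simp only [Prod.mk.injEq, DFunLike.coe_fn_eq] at he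
      exact Prod.ext he.1 (Prod.ext he.2.1 he.2.2)
  refine hcard.trans ?_
  have hbb : Fintype.card O ^ #(big (ρ τ0)) ≤ Fintype.card O ^ b :=
    Nat.pow_le_pow_right Fintype.card_pos (hb τ0 h0T)
  have hsm : ∀ x, x ∉ big (ρ τ0) → #(blk (ρ τ0) x) ≤ 4 := by
    intro x hx
    simp only [big, mem_filter, mem_univ, true_and] at hx
    omega
  have p1 : ∏ x, #(blk (ρ τ0) x) ≤ 4 ^ Fintype.card O * Fintype.card O ^ b :=
    (prod_le_four _ (big (ρ τ0)) (fun x => card_le_univ _) hsm).trans (Nat.mul_le_mul_left _ hbb)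
  have p2 : ∏ x, #(blk (ρ τ0) (τ0.1 (ρ τ0 x))) ≤ 4 ^ Fintype.card O * Fintype.card O ^ b := by
    refine le_trans (prod_le_prod' ?_) p1
    intro x _
    refine (ht' τ0 h0T _).trans (le_of_eq ?_)
    rw [blk_congr (ρ τ0) (hρ τ0 h0T x)]
  rw [card_product, card_product, Fintype.card_piFinset, Fintype.card_piFinset]
  calc _ ≤ (4 ^ Fintype.card O * Fintype.card O ^ b) * ((4 ^ Fintype.card O * Fintype.card O ^ b) *
        (4 ^ Fintype.card O * Fintype.card O ^ b)) := Nat.mul_le_mul p2 (Nat.mul_le_mul p1 p1)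
    _ = _ := by ring

end Pool.Agent.P.MP_fcd401_al
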