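import Pool.Agent.P.MP_fcd401_al.Group

set_option autoImplicit false

namespace Pool.Agent.P.MP_fcd401_al

open Equiv

/-- generators: t, a, q, seventy loops, one loop, 106 gadgets -/
abbrev Gen : Type := Fin 3 ⊕ Fin 70 ⊕ Unit ⊕ Fin 106

def gt : Gen := Sum.inl 0
def ga : Gen := Sum.inl 1
def gq : Gen := Sum.inl 2
def gs (k : Fin 70) : Gen := Sum.inr (Sum.inl k)
def gz : Gen := Sum.inr (Sum.inr (Sum.inl ()))
def gw (k : Fin 106) : Gen := Sum.inr (Sum.inr (Sum.inr k))

/-- conjugate of `g` by a power of `t` -/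
def cj {Γ : Type} [Group Γ] (t g : Γ) (i : ℤ) : Γ := (t ^ i)⁻¹ * g * t ^ i

/-- trace of `n` under conjugation by `g` -/
def tr {Γ : Type} [Group Γ] (g n : Γ) : Γ := n * (g * n * g⁻¹) * (g * g * n * g⁻¹ * g⁻¹)

/-- nested traces -/
def wd {Γ : Type} [Group Γ] (t a u : Γ) : List ℕ → Γ
  | [] => u
  | j :: l => tr (cj t a j) (wd t a u l)

theorem map_cj {Γ Δ : Type} [Group Γ] [Group Δ] (f : Γ →* Δ) (t g : Γ) (i : ℤ) :
    f (cj t g i) = cj (f t) (f g) i := by simp [cj]

theorem map_wd {Γ Δ : Type} [Group Γ] [Group Δ] (f : Γ →* Δ) (t a u : Γ) (l : List ℕ) :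
    f (wd t a u l) = wd (f t) (f a) (f u) l := by
  induction l with
  | nil => rfl
  | cons j l ih => simp [wd, tr, map_cj, ih]

/-- the relations among `t, a, q` -/
structure GoodT (β : ℝ) {Γ : Type} [Group Γ] (t a q : Γ) : Prop where
  q4 : q ^ 4 = 1
  a3 : a ^ 3 = 1
  hw : ∀ (L : ℕ) (l : List ℕ), l.Nodup → (∀ j ∈ l, j < L) → β * L + 1 < l.length →
    wd t a (q * q) l = 1

/-- all relations -/
structure Good (β : ℝ) {Γ : Type} [Group Γ] (x : Gen → Γ) : Prop where
  base : GoodT β (x gt) (x ga) (x gq)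
  sa : ∀ k i, cj (x gt) (x ga) i * x (gs k) = x (gs k) * cj (x gt) (x ga) i
  sq : ∀ k i, cj (x gt) (x gq) i * x (gs k) = x (gs k) * cj (x gt) (x gq) i
  za : x ga * x gz = x gz * x ga
  w3 : ∀ k, x (gw k) ^ 3 = 1
  wu : ∀ k, (x gq * x gq) * x (gw k) * (x gq * x gq) * x (gw k) = 1

theorem Good.map {β : ℝ} {Γ Δ : Type} [Group Γ] [Group Δ] (f : Γ →* Δ) {x : Gen → Γ}
    (h : Good β x) : Good β (fun s => f (x s)) where
  base :=
    { q4 := by rw [← map_pow, h.base.q4, map_one]
      a3 := by rw [← map_pow, h.base.a3, map_one]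
      hw := by
        intro L l h1 h2 h3
        rw [← map_mul, ← map_wd, h.base.hw L l h1 h2 h3, map_one] }
  sa := by
    intro k i
    rw [← map_cj, ← map_mul, ← map_mul, h.sa]
  sq := by
    intro k i
    rw [← map_cj, ← map_mul, ← map_mul, h.sq]
  za := by rw [← map_mul, ← map_mul, h.za]
  w3 := by
    intro k
    rw [← map_pow, h.w3, map_one]
  wu := by
    intro k
    simp only [← map_mul]
    rw [h.wu, map_one]

/-- the relators -/
def Rel (β : ℝ) : Set (FreeGroup Gen) :=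
  {r | ∀ (Γ : Type) [Group Γ] (x : Gen → Γ), Good β x → FreeGroup.lift x r = 1}

theorem mem_sol_iff (β : ℝ) (O : Type) (x : Gen → Perm O) : x ∈ Sol (Rel β) O ↔ Good β x := by
  refine ⟨fun h => ?_, fun h r hr => hr _ x h⟩
  have key : ∀ r s : FreeGroup Gen, (∀ (Γ : Type) [Group Γ] (y : Gen → Γ), Good β y →
      FreeGroup.lift y r = FreeGroup.lift y s) → FreeGroup.lift x r = FreeGroup.lift x s := by
    intro r s hrs
    have := h (r * s⁻¹) (by
      intro Γ _ y hy
      rw [map_mul, map_inv, hrs Γ y hy, mul_inv_cancel])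
    rwa [map_mul, map_inv, mul_inv_eq_one] at this
  let o : Gen → FreeGroup Gen := FreeGroup.of
  refine ⟨⟨?_, ?_, ?_⟩, ?_, ?_, ?_, ?_, ?_⟩
  · have := key (o gq ^ 4) 1 (fun Γ _ y hy => by simpa [o] using hy.base.q4)
    rw [(FreeGroup.lift x).map_pow] at this
    simpa [o] using this
  · have := key (o ga ^ 3) 1 (fun Γ _ y hy => by simpa [o] using hy.base.a3)
    rw [(FreeGroup.lift x).map_pow] at this
    simpa [o] using this
  · intro L l h1 h2 h3
    simpa [o, map_wd] using key (wd (o gt) (o ga) (o gq * o gq) l) 1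
      (fun Γ _ y hy => by simpa [o, map_wd] using hy.base.hw L l h1 h2 h3)
  · intro k i
    simpa [o, map_cj] using key (cj (o gt) (o ga) i * o (gs k)) (o (gs k) * cj (o gt) (o ga) i)
      (fun Γ _ y hy => by simpa [o, map_cj] using hy.sa k i)
  · intro k i
    simpa [o, map_cj] using key (cj (o gt) (o gq) i * o (gs k)) (o (gs k) * cj (o gt) (o gq) i)
      (fun Γ _ y hy => by simpa [o, map_cj] using hy.sq k i)
  · simpa [o] using key (o ga * o gz) (o gz * o ga) (fun Γ _ y hy => by simpa [o] using hy.za)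
  · intro k
    have := key (o (gw k) ^ 3) 1 (fun Γ _ y hy => by simpa [o] using hy.w3 k)
    rw [(FreeGroup.lift x).map_pow] at this
    simpa [o] using this
  · intro k
    simpa [o] using key ((o gq * o gq) * o (gw k) * (o gq * o gq) * o (gw k)) 1
      (fun Γ _ y hy => by simpa [o] using hy.wu k)

end Pool.Agent.P.MP_fcd401_al
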