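import Pool.Agent.P.MP_fcd401_al.Count

set_option autoImplicit false

namespace Pool.Agent.P.MP_fcd401_al

open Equiv Finset

variable {O : Type} [Fintype O] [DecidableEq O]

theorem exists_transversal (u w : Perm O) (hu : ∀ x, u (u x) = x) (hw : ∀ x, w (w (w x)) = x)
    (huw : ∀ x, u (w x) = w (w (u x))) :
    ∃ T : Finset O, (∀ x ∈ T, u x ∈ T) ∧ (∀ x ∈ T, w x ∉ T) ∧
      ∀ y, w y ≠ y → y ∈ T ∨ ∃ x ∈ T, y = w x ∨ y = w (w x) := by
  classical
  have huw2 : ∀ x, u (w (w x)) = w (u x) := by
    intro x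
    rw [huw, huw, hw]
  obtain ⟨T, hT, hmax⟩ := exists_max_image
    (univ.filter fun T : Finset O => (∀ x ∈ T, u x ∈ T) ∧ (∀ x ∈ T, w x ∉ T)) card
    ⟨∅, by simp⟩
  obtain ⟨hT1, hT2⟩ := (mem_filter.1 hT).2
  refine ⟨T, hT1, hT2, ?_⟩
  intro y hy
  by_contra hc
  -- the covered set
  let C : O → Prop := fun y => y ∈ T ∨ ∃ x ∈ T, y = w x ∨ y = w (w x)
  have Cw : ∀ z, C z → C (w (w z)) := by
    rintro z (h | ⟨x, hx, rfl | rfl⟩)
    · exact Or.inr ⟨z, h, Or.inr rfl⟩
    · rw [hw]; exact Or.inl hx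
    · rw [hw]; exact Or.inr ⟨x, hx, Or.inl rfl⟩
  have Cu : ∀ z, C z → C (u z) := by
    rintro z (h | ⟨x, hx, rfl | rfl⟩)
    · exact Or.inl (hT1 z h)
    · exact Or.inr ⟨u x, hT1 x hx, Or.inr (huw x)⟩
    · exact Or.inr ⟨u x, hT1 x hx, Or.inl (huw2 x)⟩
  have nCw : ∀ z, ¬ C z → ¬ C (w z) := fun z hz h => hz (by simpa [hw] using Cw _ h)
  have nCu : ∀ z, ¬ C z → ¬ C (u z) := fun z hz h => hz (by simpa [hu] using Cu _ h)
  -- adding a good point contradicts maximality
  have add : ∀ z, ¬ C z → w z ≠ z → w z ≠ u z → w (u z) ≠ z → False := by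
    intro z hz h1 h2 h3
    have hzT : z ∉ T := fun h => hz (Or.inl h)
    have hin : ∀ v, ¬ C v → ∀ x ∈ T, w x ≠ v := fun v hv x hx h => hv (Or.inr ⟨x, hx, Or.inl h.symm⟩)
    have hmem : insert z (insert (u z) T) ∈
        univ.filter fun T : Finset O => (∀ x ∈ T, u x ∈ T) ∧ (∀ x ∈ T, w x ∉ T) := by
      simp only [mem_filter, mem_univ, true_and, mem_insert, not_or]
      refine ⟨?_, ?_⟩
      · rintro x (rfl | rfl | hx)
        · exact Or.inr (Or.inl rfl)
        · exact Or.inl (hu z)
        · exact Or.inr (Or.inr (hT1 x hx))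
      · rintro x (rfl | rfl | hx)
        · exact ⟨h1, h2, fun h => nCw _ hz (Or.inl h)⟩
        · refine ⟨h3, ?_, fun h => nCw _ (nCu _ hz) (Or.inl h)⟩
          intro h
          rw [← huw2] at h
          have h4 := u.injective h
          apply h1
          have h5 := congrArg w h4
          rw [hw] at h5
          exact h5.symm
        · exact ⟨hin z hz x hx, hin _ (nCu _ hz) x hx, hT2 x hx⟩
    have h5 := hmax _ hmem
    have h6 : #T < #(insert z (insert (u z) T)) := by
      refine card_lt_card ⟨?_, ?_⟩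
      · intro x hx
        exact mem_insert_of_mem (mem_insert_of_mem hx)
      · intro h
        exact hzT (h (mem_insert_self _ _))
    omega
  have hy1 : w (w y) ≠ w y := fun h => hy (w.injective h)
  have hy2 : w (w (w y)) ≠ w (w y) := fun h => hy1 (w.injective h)
  by_cases c1 : w y = u y
  · have e : u (w (w y)) = w (w y) := by rw [huw2, ← c1]
    exact add (w (w y)) (nCw _ (nCw _ hc)) hy2 (by rw [e]; exact hy2) (by rw [e]; exact hy2)
  by_cases c2 : w (u y) = y
  · have e : u (w y) = w y := by rw [huw, c2]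
    exact add (w y) (nCw _ hc) hy1 (by rw [e]; exact hy1) (by rw [e]; exact hy1)
  exact add y hc hy c1 c2

theorem card_gadget_le [Nonempty O] (u : Perm O) (hu : u * u = 1) (W : Finset (Perm O))
    (hW : ∀ w ∈ W, w ^ 3 = 1 ∧ u * w * u * w = 1) (Z : ℕ)
    (hZ : ∀ z : ℕ, 3 * z ≤ Fintype.card O → 2 * z ≤ #u.support → z ≤ Z) :
    #W ≤ 2 ^ Fintype.card O * Fintype.card O ^ Z := by
  have hu' : ∀ x, u (u x) = x := fun x => DFunLike.congr_fun hu x
  refine card_le_of_det_var W Z (fun T w => (∀ x, w (w (w x)) = x) ∧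
    (∀ x, u (w x) = w (w (u x))) ∧ (∀ x ∈ T, u x ∈ T) ∧
      ∀ y, w y ≠ y → y ∈ T ∨ ∃ x ∈ T, y = w x ∨ y = w (w x)) ?_ ?_
  · intro w hw
    obtain ⟨h1, h2⟩ := hW w hw
    have hw3 : ∀ x, w (w (w x)) = x := by
      intro x
      have := DFunLike.congr_fun h1 x
      simpa [pow_succ] using this
    have huw : ∀ x, u (w x) = w (w (u x)) := by
      intro x
      have h3 : u (w (u (w x))) = x := DFunLike.congr_fun h2 x
      have h4 : w (u (w x)) = u x := by rw [← hu' (w (u (w x))), h3]
      rw [← h4, hw3]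
    have huw2 : ∀ x, u (w (w x)) = w (u x) := by
      intro x
      rw [huw, huw, hw3]
    obtain ⟨T, hT1, hT2, hT3⟩ := exists_transversal u w hu' hw3 huw
    refine ⟨T, ?_, hw3, huw, hT1, hT3⟩
    have hT2' : ∀ x ∈ T, w (w x) ∉ T := by
      intro x hx h
      have := hT2 _ h
      rw [hw3] at this
      exact this hx
    have d12 : Disjoint (T.image w) (T.image fun x => w (w x)) := by
      rw [disjoint_left]
      intro y hy hy'
      obtain ⟨x, hx, rfl⟩ := mem_image.1 hy
      obtain ⟨x', hx', h⟩ := mem_image.1 hy'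
      have := w.injective h
      exact hT2 x' hx' (this ▸ hx)
    have c1 : #(T.image w) = #T := card_image_of_injective _ w.injective
    have c2 : #(T.image fun x => w (w x)) = #T :=
      card_image_of_injective _ (w.injective.comp w.injective)
    have c12 : #(T.image w ∪ T.image fun x => w (w x)) = 2 * #T := by
      rw [card_union_of_disjoint d12, c1, c2]; ring
    apply hZ
    · have d0 : Disjoint T (T.image w ∪ T.image fun x => w (w x)) := by
        rw [disjoint_left]
        intro y hy hy'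
        rcases mem_union.1 hy' with h | h
        · obtain ⟨x, hx, rfl⟩ := mem_image.1 h
          exact hT2 x hx hy
        · obtain ⟨x, hx, rfl⟩ := mem_image.1 h
          exact hT2' x hx hy
      have := card_le_univ (T ∪ (T.image w ∪ T.image fun x => w (w x)))
      rw [card_union_of_disjoint d0, c12] at this
      omega
    · rw [← c12]
      refine card_le_card ?_
      intro y hy
      rw [Perm.mem_support]
      rcases mem_union.1 hy with h | h
      · obtain ⟨x, hx, rfl⟩ := mem_image.1 h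
        intro h
        rw [huw] at h
        have h5 := w.injective h
        exact hT2 _ (hT1 x hx) (h5.symm ▸ hx)
      · obtain ⟨x, hx, rfl⟩ := mem_image.1 h
        intro h
        rw [huw2] at h
        have h5 := w.injective h
        exact hT2 x hx (h5 ▸ hT1 x hx)
  · rintro T w w' ⟨a1, a2, a3, a4⟩ ⟨b1, b2, b3, b4⟩ he
    have e2 : ∀ x ∈ T, w (w x) = w' (w' x) := by
      intro x hx
      have s1 := a2 (u x)
      have s2 := b2 (u x)
      rw [hu'] at s1 s2
      rw [← s1, ← s2, he _ (a3 x hx)]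
    have cov : ∀ y, (y ∈ T ∨ ∃ x ∈ T, y = w x ∨ y = w (w x)) → w y = w' y := by
      rintro y (h | ⟨x, hx, rfl | rfl⟩)
      · exact he y h
      · rw [e2 x hx, he x hx]
      · rw [a1, e2 x hx, b1]
    ext y
    by_cases hy : w y = y
    · by_cases hy' : w' y = y
      · rw [hy, hy']
      · apply cov
        rcases b4 y hy' with h | ⟨x, hx, h | h⟩
        · exact Or.inl h
        · exact Or.inr ⟨x, hx, Or.inl (h.trans (he x hx).symm)⟩
        · exact Or.inr ⟨x, hx, Or.inr (h.trans (e2 x hx).symm)⟩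
    · exact cov y (a4 y hy)

end Pool.Agent.P.MP_fcd401_al
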