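import Mathlib

set_option autoImplicit false

namespace Pool.Agent.P.MP_fcd401_al

open Equiv

/-- Tuples of permutations of `O` that satisfy all relators in `Rel`. -/
def Sol {S : Type} (Rel : Set (FreeGroup S)) (O : Type) : Set (S → Perm O) :=
  {x | ∀ r ∈ Rel, FreeGroup.lift x r = 1}

/-- The elements of the free group on `Option S` that die in every finite action satisfying `Rel`. -/
def resK {S : Type} (Rel : Set (FreeGroup S)) : Subgroup (FreeGroup (Option S)) where
  carrier := {g | ∀ (O : Type) [Finite O] (φ : FreeGroup (Option S) →* Perm O),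
    (∀ r ∈ Rel, φ (FreeGroup.map some r) = 1) → φ g = 1}
  mul_mem' := by
    intro a b ha hb O _ φ h
    rw [map_mul, ha O φ h, hb O φ h, one_mul]
  one_mem' := by
    intro O _ φ _
    exact map_one φ
  inv_mem' := by
    intro a ha O _ φ h
    rw [map_inv, ha O φ h, inv_one]

instance resK_normal {S : Type} (Rel : Set (FreeGroup S)) : (resK Rel).Normal where
  conj_mem := by
    intro a ha g O _ φ h
    rw [map_mul, map_mul, ha O φ h, mul_one, ← map_mul, mul_inv_cancel, map_one]

/-- The group. -/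
abbrev Grp {S : Type} (Rel : Set (FreeGroup S)) : Type := FreeGroup (Option S) ⧸ resK Rel

theorem grp_fg {S : Type} [Finite S] (Rel : Set (FreeGroup S)) : Group.FG (Grp Rel) :=
  Group.fg_of_surjective (f := QuotientGroup.mk' (resK Rel)) (QuotientGroup.mk'_surjective _)

theorem grp_rf {S : Type} (Rel : Set (FreeGroup S)) (g : Grp Rel) (hg : g ≠ 1) :
    ∃ H : Subgroup (Grp Rel), H.FiniteIndex ∧ g ∉ H := by
  obtain ⟨g, rfl⟩ := QuotientGroup.mk_surjective g
  have h1 : g ∉ resK Rel := fun h => hg ((QuotientGroup.eq_one_iff g).2 h)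
  have h2 : ∃ (O : Type) (_ : Finite O) (φ : FreeGroup (Option S) →* Perm O),
      (∀ r ∈ Rel, φ (FreeGroup.map some r) = 1) ∧ φ g ≠ 1 := by
    by_contra hc
    apply h1
    intro O hO φ h
    by_contra h3
    exact hc ⟨O, hO, φ, h, h3⟩
  obtain ⟨O, hO, φ, h, hne⟩ := h2
  let ψ : Grp Rel →* Perm O := QuotientGroup.lift (resK Rel) φ (fun x hx => hx O φ h)
  refine ⟨ψ.ker, inferInstance, ?_⟩
  rw [MonoidHom.mem_ker]
  exact hne

theorem lift_map_some {S Γ : Type} [Group Γ] (φ : FreeGroup (Option S) →* Γ) (r : FreeGroup S) :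
    φ (FreeGroup.map some r) = FreeGroup.lift (fun s => φ (FreeGroup.of (some s))) r := by
  have : φ.comp (FreeGroup.map some) = FreeGroup.lift (fun s => φ (FreeGroup.of (some s))) := by
    ext s
    simp
  exact DFunLike.congr_fun this r

/-- The action of the group attached to a solution and a value of the free generator. -/
def act {S O : Type} [Finite O] {Rel : Set (FreeGroup S)} (x : Sol Rel O) (c : Perm O) :
    Grp Rel →* Perm O :=
  QuotientGroup.lift (resK Rel) (FreeGroup.lift (fun o : Option S => o.elim c x.1)) (by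
    intro g hg
    refine hg O _ ?_
    intro r hr
    rw [lift_map_some]
    simpa using x.2 r hr)

theorem act_some {S O : Type} [Finite O] {Rel : Set (FreeGroup S)} (x : Sol Rel O) (c : Perm O)
    (s : S) : act x c (QuotientGroup.mk (FreeGroup.of (some s))) = x.1 s := by
  show FreeGroup.lift (fun o : Option S => o.elim c x.1) (FreeGroup.of (some s)) = _
  simp

theorem act_none {S O : Type} [Finite O] {Rel : Set (FreeGroup S)} (x : Sol Rel O) (c : Perm O) :
    act x c (QuotientGroup.mk (FreeGroup.of none)) = c := by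
  show FreeGroup.lift (fun o : Option S => o.elim c x.1) (FreeGroup.of none) = _
  simp

theorem exists_cycle (O : Type) [Finite O] [Nonempty O] :
    ∃ (c : Perm O) (p : O), ∀ y, ∃ i : ℕ, (c ^ i) p = y := by
  have hn : Nat.card O ≠ 0 := Nat.card_pos.ne'
  have : NeZero (Nat.card O) := ⟨hn⟩
  obtain ⟨e⟩ : Nonempty (ZMod (Nat.card O) ≃ O) := by
    apply Finite.card_eq.1
    simp
  refine ⟨e.permCongr (Equiv.addRight 1), e 0, fun y => ⟨(e.symm y).val, ?_⟩⟩
  have : ∀ i : ℕ, ((e.permCongr (Equiv.addRight 1)) ^ i) (e 0) = e (i : ZMod (Nat.card O)) := by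
    intro i
    induction i with
    | zero => simp
    | succ i ih => rw [pow_succ', Perm.mul_apply, ih]; simp
  rw [this]
  simp

/-- lower bound: solutions inject into subgroups of index `card O`. -/
theorem sol_le_index {S O : Type} [Finite O] [Nonempty O] (Rel : Set (FreeGroup S))
    (hfin : {H : Subgroup (Grp Rel) | H.index = Nat.card O}.Finite) :
    (Sol Rel O).ncard ≤ {H : Subgroup (Grp Rel) | H.index = Nat.card O}.ncard := by
  obtain ⟨c, p, hc⟩ := exists_cycle O
  let f : Sol Rel O → Subgroup (Grp Rel) := fun x =>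
    (MulAction.stabilizer (Perm O) p).comap (act x c)
  have hmem : ∀ x g, g ∈ f x ↔ act x c g p = p := fun x g => Iff.rfl
  have hidx : ∀ x, (f x).index = Nat.card O := by
    intro x
    let : MulAction (Grp Rel) O := MulAction.compHom O (act x c)
    have : MulAction.IsPretransitive (Grp Rel) O := by
      refine MulAction.isPretransitive_iff_base (a := p) |>.2 ?_
      intro y
      obtain ⟨i, hi⟩ := hc y
      refine ⟨(QuotientGroup.mk (FreeGroup.of none)) ^ i, ?_⟩
      show act x c _ p = y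
      rw [map_pow, act_none, hi]
    exact MulAction.index_stabilizer_of_transitive (Grp Rel) p
  have hinj : Function.Injective f := by
    intro x x' h
    ext s y
    obtain ⟨i, rfl⟩ := hc y
    obtain ⟨j, hj⟩ := hc (x.1 s ((c ^ i) p))
    set C : Grp Rel := QuotientGroup.mk (FreeGroup.of none) with hC
    have h1 : (C ^ j)⁻¹ * QuotientGroup.mk (FreeGroup.of (some s)) * C ^ i ∈ f x := by
      rw [hmem, map_mul, map_mul, map_inv, map_pow, map_pow, hC, act_none, act_some]
      simp only [Perm.mul_apply]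
      rw [← hj]
      simp
    rw [h, hmem, map_mul, map_mul, map_inv, map_pow, map_pow, hC, act_none, act_some] at h1
    simp only [Perm.mul_apply] at h1
    rw [← hj]
    rw [Perm.inv_eq_iff_eq] at h1
    exact h1.symm
  rw [← Nat.card_coe_set_eq, ← Nat.card_coe_set_eq]
  have := hfin.to_subtype
  exact Nat.card_le_card_of_injective
    (fun x => (⟨f x, hidx x⟩ : {H : Subgroup (Grp Rel) | H.index = Nat.card O}))
    (fun x y h => hinj (congrArg Subtype.val h))

/-- upper bound -/
theorem index_inj {S : Type} (Rel : Set (FreeGroup S)) (k : ℕ) (hk : k ≠ 0) :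
    ∃ f : {H : Subgroup (Grp Rel) | H.index = k} × Perm (Fin k) →
      Fin k × Sol Rel (Fin k) × Perm (Fin k), Function.Injective f := by
  have he : ∀ H : {H : Subgroup (Grp Rel) | H.index = k}, Nonempty ((Grp Rel ⧸ H.1) ≃ Fin k) := by
    intro H
    have h1 : Nat.card (Grp Rel ⧸ H.1) = k := H.2
    have : Finite (Grp Rel ⧸ H.1) := Nat.finite_of_card_ne_zero (by rw [h1]; exact hk)
    apply Finite.card_eq.1
    simp [h1]
  let e : ∀ H : {H : Subgroup (Grp Rel) | H.index = k}, Perm (Fin k) → ((Grp Rel ⧸ H.1) ≃ Fin k) :=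
    fun H π => (Classical.choice (he H)).trans π
  let φ : ∀ H : {H : Subgroup (Grp Rel) | H.index = k}, Perm (Fin k) → (Grp Rel →* Perm (Fin k)) :=
    fun H π => ((e H π).permCongrHom.toMonoidHom).comp (MulAction.toPermHom (Grp Rel) (Grp Rel ⧸ H.1))
  have hφ : ∀ H π (g h : Grp Rel), φ H π g (e H π (QuotientGroup.mk h)) =
      e H π (QuotientGroup.mk (g * h)) := by
    intro H π g h
    simp [φ, Equiv.permCongrHom]
  have hsol : ∀ H π, (fun s => φ H π (QuotientGroup.mk (FreeGroup.of (some s)))) ∈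
      Sol Rel (Fin k) := by
    intro H π r hr
    have := lift_map_some ((φ H π).comp (QuotientGroup.mk' (resK Rel))) r
    simp only [MonoidHom.comp_apply, QuotientGroup.mk'_apply] at this
    rw [← this]
    have h2 : (QuotientGroup.mk (FreeGroup.map some r) : Grp Rel) = 1 := by
      rw [QuotientGroup.eq_one_iff]
      intro O _ ψ h
      exact h r hr
    rw [h2, map_one]
  refine ⟨fun z => (e z.1 z.2 (QuotientGroup.mk 1), ⟨_, hsol z.1 z.2⟩,
    φ z.1 z.2 (QuotientGroup.mk (FreeGroup.of none))), ?_⟩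
  rintro ⟨H, π⟩ ⟨H', π'⟩ h
  simp only [Prod.mk.injEq, Subtype.mk.injEq] at h
  obtain ⟨h1, h2, h3⟩ := h
  have hφeq : φ H π = φ H' π' := by
    apply QuotientGroup.monoidHom_ext
    ext1 o
    cases o with
    | none => exact h3
    | some s => exact congrFun h2 s
  have hall : ∀ g : Grp Rel, e H π (QuotientGroup.mk g) = e H' π' (QuotientGroup.mk g) := by
    intro g
    have a1 := hφ H π g 1
    have a2 := hφ H' π' g 1
    rw [mul_one] at a1 a2
    rw [← a1, ← a2, hφeq, h1]
  have hH : H = H' := by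
    ext g
    have b1 : g ∈ H.1 ↔ e H π (QuotientGroup.mk g) = e H π (QuotientGroup.mk 1) := by
      rw [(e H π).injective.eq_iff, eq_comm, QuotientGroup.eq]; simp
    have b2 : g ∈ H'.1 ↔ e H' π' (QuotientGroup.mk g) = e H' π' (QuotientGroup.mk 1) := by
      rw [(e H' π').injective.eq_iff, eq_comm, QuotientGroup.eq]; simp
    rw [b1, b2, hall g, hall 1]
  subst hH
  congr 1
  ext y
  obtain ⟨z, rfl⟩ := (Classical.choice (he H)).surjective y
  obtain ⟨g, rfl⟩ := QuotientGroup.mk_surjective z
  exact congrArg Fin.val (hall g)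

theorem index_finite {S : Type} [Finite S] (Rel : Set (FreeGroup S)) (k : ℕ) (hk : k ≠ 0) :
    {H : Subgroup (Grp Rel) | H.index = k}.Finite := by
  obtain ⟨f, hf⟩ := index_inj Rel k hk
  have : Finite ({H : Subgroup (Grp Rel) | H.index = k} × Perm (Fin k)) := Finite.of_injective f hf
  have h2 : Finite {H : Subgroup (Grp Rel) | H.index = k} :=
    Finite.of_injective (fun H => ((H, 1) : {H : Subgroup (Grp Rel) | H.index = k} × Perm (Fin k)))
      (fun a b h => congrArg Prod.fst h)
  exact h2

theorem index_le_sol {S : Type} [Finite S] (Rel : Set (FreeGroup S)) (k : ℕ) (hk : k ≠ 0) :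
    {H : Subgroup (Grp Rel) | H.index = k}.ncard ≤ k * (Sol Rel (Fin k)).ncard := by
  obtain ⟨f, hf⟩ := index_inj Rel k hk
  have h := Nat.card_le_card_of_injective f hf
  simp only [Nat.card_prod, Nat.card_coe_set_eq, Nat.card_eq_fintype_card, Fintype.card_fin]
    at h
  rw [← mul_assoc] at h
  exact Nat.le_of_mul_le_mul_right h Fintype.card_pos

/-- number of subgroups of index at most `n` -/
noncomputable def sg {S : Type} (Rel : Set (FreeGroup S)) (n : ℕ) : ℕ :=
  Set.ncard {H : Subgroup (Grp Rel) | H.index ≠ 0 ∧ H.index ≤ n}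

theorem sg_set_eq {S : Type} (Rel : Set (FreeGroup S)) (n : ℕ) :
    {H : Subgroup (Grp Rel) | H.index ≠ 0 ∧ H.index ≤ n} =
      ⋃ k ∈ Finset.Icc 1 n, {H : Subgroup (Grp Rel) | H.index = k} := by
  ext H
  simp only [Set.mem_ofPred_eq, Set.mem_iUnion, Finset.mem_Icc]
  constructor
  · rintro ⟨h1, h2⟩
    exact ⟨H.index, ⟨Nat.one_le_iff_ne_zero.2 h1, h2⟩, rfl⟩
  · rintro ⟨k, ⟨h1, h2⟩, rfl⟩
    exact ⟨Nat.one_le_iff_ne_zero.1 h1, h2⟩

theorem sg_finite {S : Type} [Finite S] (Rel : Set (FreeGroup S)) (n : ℕ) :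
    {H : Subgroup (Grp Rel) | H.index ≠ 0 ∧ H.index ≤ n}.Finite := by
  rw [sg_set_eq]
  refine Set.Finite.biUnion (Finset.finite_toSet _) ?_
  intro k hk
  have := (Finset.mem_Icc.1 hk).1
  exact index_finite Rel k (by omega)

theorem sol_le_sg {S O : Type} [Finite S] [Finite O] [Nonempty O] (Rel : Set (FreeGroup S))
    (n : ℕ) (hn : Nat.card O ≤ n) : (Sol Rel O).ncard ≤ sg Rel n := by
  have h0 : Nat.card O ≠ 0 := Nat.card_pos.ne'
  refine (sol_le_index Rel (index_finite Rel _ h0)).trans ?_
  refine Set.ncard_le_ncard ?_ (sg_finite Rel n)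
  intro H hH
  have : H.index = Nat.card O := hH
  exact ⟨this ▸ h0, this ▸ hn⟩

theorem sg_le_sum {S : Type} [Finite S] (Rel : Set (FreeGroup S)) (n : ℕ) :
    sg Rel n ≤ ∑ k ∈ Finset.Icc 1 n, k * (Sol Rel (Fin k)).ncard := by
  unfold sg
  rw [sg_set_eq]
  refine (Finset.set_ncard_biUnion_le _ _).trans ?_
  refine Finset.sum_le_sum ?_
  intro k hk
  have := (Finset.mem_Icc.1 hk).1
  exact index_le_sol Rel k (by omega)

end Pool.Agent.P.MP_fcd401_al
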