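import Pool.Agent.P.MP_fcd401_al.Model

set_option autoImplicit false

namespace Pool.Agent.P.MP_fcd401_al

open Equiv Finset

/-- extension of a family of permutations indexed by a finite set -/
def extd {A Y : Type} [DecidableEq Y] (T : Finset Y) (ρ : Y → Y) (π : T → Perm A) (y : Y) :
    Perm A := if h : ρ y ∈ T then π ⟨ρ y, h⟩ else 1

theorem extd_inj {A Y : Type} [DecidableEq Y] (T : Finset Y) (ρ : Y → Y)
    (hρ : ∀ y ∈ T, ρ y = y) {π π' : T → Perm A}
    (h : ∀ y ∈ T, extd T ρ π y = extd T ρ π' y) : π = π' := by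
  funext y
  have h1 := h y.1 y.2
  have h2 : ρ y.1 ∈ T := by rw [hρ y.1 y.2]; exact y.2
  have h3 : (⟨ρ y.1, h2⟩ : T) = y := Subtype.ext (hρ y.1 y.2)
  rwa [extd, extd, dif_pos h2, dif_pos h2, h3] at h1

theorem extd_congr {A Y : Type} [DecidableEq Y] (T : Finset Y) (ρ : Y → Y) (π : T → Perm A)
    {y y' : Y} (h : ρ y = ρ y') : extd T ρ π y = extd T ρ π y' := by
  unfold extd
  simp only [h]

variable (m d p : ℕ) [NeZero m] [NeZero d]

def k1 : Fin 6 → Fin 6 := ![0, 0, 0, 0, 4, 5]
def r1 (y : ZMod d × Fin 6) : ZMod d × Fin 6 := (y.1, k1 y.2)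
def T1 : Finset (ZMod d × Fin 6) := univ ×ˢ {0, 4, 5}
def k2 : Fin 6 → Fin 6 := ![0, 0, 0, 3, 4, 5]
def r2 (y : ZMod d × Fin 6) : ZMod d × Fin 6 := if y.1.val + p < d then (y.1, k2 y.2) else y
def T2 : Finset (ZMod d × Fin 6) :=
  (univ ×ˢ {0, 3, 4, 5}) ∪ ((univ.filter fun j : ZMod d => ¬ (j.val + p < d)) ×ˢ {1, 2})
def T3 : Finset (ZMod d × Fin 6) := univ ×ˢ {4, 5}

theorem card_T1 : #(T1 d) = 3 * d := by
  rw [T1, card_product, card_univ, ZMod.card, mul_comm]
  rfl

theorem card_T3 : #(T3 d) = 2 * d := by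
  rw [T3, card_product, card_univ, ZMod.card, mul_comm]
  rfl

theorem card_zero_set (hp : p ≤ d) :
    #(univ.filter fun j : ZMod d => ¬ (j.val + p < d)) = p := by
  have : #(univ.filter fun j : ZMod d => ¬ (j.val + p < d)) = #(Finset.Ico (d - p) d) := by
    refine card_bij (fun j _ => j.val) ?_ ?_ ?_
    · intro j hj
      have := (mem_filter.1 hj).2
      have := ZMod.val_lt j
      rw [mem_Ico]
      omega
    · intro j _ j' _ h
      exact ZMod.val_injective d h
    · intro k hk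
      rw [mem_Ico] at hk
      refine ⟨(k : ZMod d), ?_, ZMod.val_cast_of_lt hk.2⟩
      rw [mem_filter, ZMod.val_cast_of_lt hk.2]
      refine ⟨mem_univ _, by omega⟩
  rw [this, Nat.card_Ico]
  omega

theorem card_T2 (hp : p ≤ d) : #(T2 d p) = 4 * d + 2 * p := by
  rw [T2, card_union_of_disjoint, card_product, card_product, card_zero_set d p hp, card_univ,
    ZMod.card, mul_comm d, mul_comm p]
  · rfl
  · rw [disjoint_left]
    rintro ⟨j, v⟩ h1 h2
    have a1 := (mem_product.1 h1).2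
    have a2 := (mem_product.1 h2).2
    have : ∀ v : Fin 6, v ∈ ({0, 3, 4, 5} : Finset (Fin 6)) →
      v ∈ ({1, 2} : Finset (Fin 6)) → False := by decide
    exact this v a1 a2

/-- parameter space -/
def Par : Type := (Fin 70 → T1 d → Perm (ZMod m)) × (T2 d p → Perm (ZMod m)) ×
  (Fin 106 → T3 d → Perm (ZMod m))

instance parFintype : Fintype (Par m d p) :=
  inferInstanceAs (Fintype ((Fin 70 → T1 d → Perm (ZMod m)) × (T2 d p → Perm (ZMod m)) ×
    (Fin 106 → T3 d → Perm (ZMod m))))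

theorem card_Par (hp : p ≤ d) :
    Fintype.card (Par m d p) = m.factorial ^ (426 * d + 2 * p) := by
  show Fintype.card ((Fin 70 → T1 d → Perm (ZMod m)) × (T2 d p → Perm (ZMod m)) ×
    (Fin 106 → T3 d → Perm (ZMod m))) = _
  simp only [Fintype.card_prod, Fintype.card_fun, Fintype.card_coe, card_T1, card_T3,
    card_T2 d p hp, Fintype.card_perm, ZMod.card, Fintype.card_fin]
  ring

/-- the model attached to a parameter -/
def mdl (z : Par m d p) : Gen → Perm (ZMod m × ZMod d × Fin 6)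
  | Sum.inl i => ![pc _ _ (Equiv.addRight 1, tY d p), pc _ _ (1, aY d p), pc _ _ (1, qY d)] i
  | Sum.inr (Sum.inl k) => fibL _ _ (extd (T1 d) (r1 d) (z.1 k))
  | Sum.inr (Sum.inr (Sum.inl _)) => fibL _ _ (extd (T2 d p) (r2 d p) z.2.1)
  | Sum.inr (Sum.inr (Sum.inr k)) => fibL _ _ (extd (T3 d) id (z.2.2 k)) * pc _ _ (1, wY d) *
      (fibL _ _ (extd (T3 d) id (z.2.2 k)))⁻¹

omit [NeZero m] in
theorem mdl_good (hp : p ≤ d) (β : ℝ) (hβ : (p : ℝ) ≤ β * d) (z : Par m d p) :
    Good β (mdl m d p z) := by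
  have et : mdl m d p z gt = pc _ _ (Equiv.addRight 1, tY d p) := rfl
  have ea : mdl m d p z ga = pc _ _ (1, aY d p) := rfl
  have eq : mdl m d p z gq = pc _ _ (1, qY d) := rfl
  have es : ∀ k, mdl m d p z (gs k) = fibL _ _ (extd (T1 d) (r1 d) (z.1 k)) := fun _ => rfl
  have ez : mdl m d p z gz = fibL _ _ (extd (T2 d p) (r2 d p) z.2.1) := rfl
  have ew : ∀ k, mdl m d p z (gw k) = fibL _ _ (extd (T3 d) id (z.2.2 k)) * pc _ _ (1, wY d) *
      (fibL _ _ (extd (T3 d) id (z.2.2 k)))⁻¹ := fun _ => rfl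
  refine ⟨?_, ?_, ?_, ?_, ?_, ?_⟩
  · rw [et, ea, eq]
    exact ((goodT_model d p hp β hβ).prod _).map _
  · intro k i
    rw [et, ea, es, ← map_cj, cj_prod, aY, cj_tY]
    refine fibL_comm _ _ ?_
    intro y
    apply extd_congr
    simp only [r1, fibR_apply, aloc]
    split_ifs
    · have : ∀ v, k1 (c0 v) = k1 v := by decide
      rw [this]
    · rfl
  · intro k i
    rw [et, eq, es, ← map_cj, cj_prod, qY, cj_tY]
    refine fibL_comm _ _ ?_
    intro y
    apply extd_congr
    simp only [r1, fibR_apply]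
    have : ∀ v, k1 (q0 v) = k1 v := by decide
    rw [this]
  · rw [ea, ez]
    refine fibL_comm _ _ ?_
    intro y
    apply extd_congr
    simp only [r2, aY, fibR_apply, aloc]
    split_ifs
    · have : ∀ v, k2 (c0 v) = k2 v := by decide
      rw [this]
    · rfl
  · intro k
    rw [ew, conj_pow, ← map_pow]
    have : ((1 : Perm (ZMod m)), wY d) ^ 3 = 1 := by
      have h1 : (fun _ : ZMod d => w0) ^ 3 = 1 := by
        funext j
        show w0 ^ 3 = 1
        decide
      rw [Prod.pow_mk, one_pow, wY, ← map_pow, h1, map_one]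
      rfl
    rw [this, map_one]
    simp
  · intro k
    rw [ew, eq, ← map_mul]
    set g := fibL _ _ (extd (T3 d) id (z.2.2 k)) with hg
    have hc : pc _ _ (((1 : Perm (ZMod m)), qY d) * (1, qY d)) * g =
        g * pc _ _ (((1 : Perm (ZMod m)), qY d) * (1, qY d)) := by
      rw [Prod.mk_mul_mk, mul_one]
      refine fibL_comm _ _ ?_
      rintro ⟨j, v⟩
      have h1 : (qY d * qY d) (j, v) = (j, q0 (q0 v)) := rfl
      rw [h1]
      have h2 : ∀ v : Fin 6, q0 (q0 v) = v ∨ (v ∉ ({4, 5} : Finset (Fin 6)) ∧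
        q0 (q0 v) ∉ ({4, 5} : Finset (Fin 6))) := by decide
      rcases h2 v with h | ⟨h, h'⟩
      · rw [h]
      · rw [extd, extd, dif_neg, dif_neg]
        · exact fun hh => h (mem_product.1 hh).2
        · exact fun hh => h' (mem_product.1 hh).2
    have h0 : (((1 : Perm (ZMod m)), qY d) * (1, qY d)) * (1, wY d) *
        (((1 : Perm (ZMod m)), qY d) * (1, qY d)) * (1, wY d) = 1 := by
      simp only [Prod.mk_mul_mk, mul_one, qY, wY, ← map_mul]
      have h1 : ((fun _ : ZMod d => q0) * fun _ => q0) * (fun _ => w0) *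
          ((fun _ : ZMod d => q0) * fun _ => q0) * (fun _ => w0) = 1 := by
        funext j
        show q0 * q0 * w0 * (q0 * q0) * w0 = 1
        decide
      rw [h1, map_one]
      rfl
    have h1 := congrArg (pc (ZMod m) (ZMod d × Fin 6)) h0
    rw [map_mul, map_mul, map_mul, map_one] at h1
    set u := pc _ _ (((1 : Perm (ZMod m)), qY d) * (1, qY d)) with hu
    set w := pc _ _ ((1 : Perm (ZMod m)), wY d) with hw
    have hc' : u = g * u * g⁻¹ := by rw [← hc]; simp
    calc u * (g * w * g⁻¹) * u * (g * w * g⁻¹)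
        = (g * u * g⁻¹) * (g * w * g⁻¹) * (g * u * g⁻¹) * (g * w * g⁻¹) := by rw [← hc']
      _ = g * (u * w * u * w) * g⁻¹ := by group
      _ = 1 := by rw [h1]; simp

omit [NeZero m] in
theorem mdl_inj : Function.Injective (mdl m d p) := by
  intro z z' h
  refine Prod.ext ?_ (Prod.ext ?_ ?_)
  · funext k
    have := fibL_injective (congrFun h (gs k))
    refine extd_inj (T1 d) (r1 d) ?_ (fun y _ => congrFun this y)
    rintro ⟨j, v⟩ hy
    have h1 : ∀ v ∈ ({0, 4, 5} : Finset (Fin 6)), k1 v = v := by decide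
    simp only [r1, h1 v (mem_product.1 hy).2]
  · have := fibL_injective (congrFun h gz)
    refine extd_inj (T2 d p) (r2 d p) ?_ (fun y _ => congrFun this y)
    rintro ⟨j, v⟩ hy
    have h1 : ∀ v ∈ ({0, 3, 4, 5} : Finset (Fin 6)), k2 v = v := by decide
    unfold r2
    split_ifs with hj
    · rcases mem_union.1 hy with hy | hy
      · simp only [h1 v (mem_product.1 hy).2]
      · exact absurd hj (mem_filter.1 (mem_product.1 hy).1).2
    · rfl
  · funext k
    have e := congrFun h (gw k)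
    refine extd_inj (T3 d) id (fun _ _ => rfl) ?_
    rintro ⟨j, v⟩ hy
    have hv : v ∈ ({4, 5} : Finset (Fin 6)) := (mem_product.1 hy).2
    have h1 : ∀ v ∈ ({4, 5} : Finset (Fin 6)), w0⁻¹ v ∉ ({4, 5} : Finset (Fin 6)) := by decide
    have key : ∀ (z : Par m d p) (x : ZMod m), mdl m d p z (gw k) (x, j, w0⁻¹ v) =
        (extd (T3 d) id (z.2.2 k) (j, v) x, j, v) := by
      intro z x
      have h2 : extd (T3 d) id (z.2.2 k) (j, w0⁻¹ v) = 1 := by
        rw [extd, dif_neg]
        exact fun hh => h1 v hv (mem_product.1 hh).2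
      have ew : mdl m d p z (gw k) = fibL _ _ (extd (T3 d) id (z.2.2 k)) * pc _ _ (1, wY d) *
        (fibL _ _ (extd (T3 d) id (z.2.2 k)))⁻¹ := rfl
      rw [ew, ← map_inv, Perm.mul_apply, Perm.mul_apply, fibL_apply (extd (T3 d) id (z.2.2 k))⁻¹,
        Pi.inv_apply, h2, pc_apply, fibL_apply]
      simp [wY, fibR_apply]
    ext x
    have := DFunLike.congr_fun e (x, j, w0⁻¹ v)
    rw [key, key] at this
    exact congrArg Prod.fst this

theorem sol_lower (hp : p ≤ d) (β : ℝ) (hβ : (p : ℝ) ≤ β * d) :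
    m.factorial ^ (432 * d + 2 * p) ≤ (m * (d * 6)) ^ (d * 6) *
      (Sol (Rel β) (ZMod m × ZMod d × Fin 6)).ncard := by
  classical
  have e0 : (Sol (Rel β) (ZMod m × ZMod d × Fin 6)).ncard =
      #(univ.filter fun x : Gen → Perm (ZMod m × ZMod d × Fin 6) => Good β x) := by
    rw [← Set.ncard_coe_finset]
    congr 1
    ext x
    simp [mem_sol_iff]
  rw [e0]
  set t : Perm (ZMod m × ZMod d × Fin 6) := pc _ _ (Equiv.addRight 1, tY d p) with ht
  have et : ∀ z, mdl m d p z gt = t := fun _ => rfl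
  let W : Finset (Perm (ZMod m × ZMod d × Fin 6)) :=
    univ.filter fun s => ∀ g ∈ ({t} : Set _), g * s = s * g
  have hW : #W ≤ (m * (d * 6)) ^ (d * 6) := by
    have := card_centralizer_le {t} ({0} ×ˢ univ) ?_ W (fun s hs => (mem_filter.1 hs).2)
    · simpa using this
    rintro ⟨x, y⟩
    have htm : t ∈ Subgroup.closure ({t} : Set (Perm (ZMod m × ZMod d × Fin 6))) :=
      Subgroup.subset_closure (Set.mem_singleton t)
    refine ⟨t ^ x.val, Subgroup.pow_mem _ htm _,
      (0, (tY d p ^ x.val)⁻¹ y), mem_product.2 ⟨mem_singleton_self _, mem_univ _⟩, ?_⟩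
    rw [ht, ← map_pow]
    simp [pc_apply]
  let Φ : Perm (ZMod m × ZMod d × Fin 6) × Par m d p → Gen → Perm (ZMod m × ZMod d × Fin 6) :=
    fun z s => z.1 * mdl m d p z.2 s * z.1⁻¹
  have h1 := card_le_mul_card_image_of_maps_to (f := Φ) (s := univ)
    (t := univ.filter fun x : Gen → Perm (ZMod m × ZMod d × Fin 6) => Good β x)
    (by
      intro z _
      refine mem_filter.2 ⟨mem_univ _, ?_⟩
      exact (mdl_good m d p hp β hβ z.2).map (MulAut.conj z.1).toMonoidHom)
    ((m * (d * 6)) ^ (d * 6))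
    (by
      intro x _
      rcases (univ.filter fun z => Φ z = x).eq_empty_or_nonempty with he | ⟨z0, h0⟩
      · rw [he]; simp
      refine le_trans ?_ hW
      refine card_le_card_of_injOn (fun z => z0.1⁻¹ * z.1) ?_ ?_
      · intro z hz
        have a1 := congrFun ((mem_filter.1 hz).2.trans (mem_filter.1 h0).2.symm) gt
        simp only [Φ, et] at a1
        simp only [W, coe_filter, mem_univ, true_and, Set.mem_ofPred_eq, Set.mem_singleton_iff,
          forall_eq]
        calc t * (z0.1⁻¹ * z.1) = z0.1⁻¹ * (z0.1 * t * z0.1⁻¹) * z.1 := by group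
          _ = z0.1⁻¹ * (z.1 * t * z.1⁻¹) * z.1 := by rw [a1]
          _ = _ := by group
      · intro z hz z' hz' he
        have a1 : z.1 = z'.1 := mul_left_cancel he
        have a2 := (mem_filter.1 hz).2.trans (mem_filter.1 hz').2.symm
        refine Prod.ext a1 (mdl_inj m d p ?_)
        funext s
        have := congrFun a2 s
        simp only [Φ, a1] at this
        simpa using this)
  refine le_trans ?_ h1
  rw [card_univ, Fintype.card_prod, card_Par m d p hp]
  have h2 : m.factorial ^ (6 * d) ≤ Fintype.card (Perm (ZMod m × ZMod d × Fin 6)) := by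
    have := Fintype.card_le_of_injective _ (fibL_injective (A := ZMod m) (Y := ZMod d × Fin 6))
    simpa [Fintype.card_perm, mul_comm] using this
  calc _ = m.factorial ^ (6 * d) * m.factorial ^ (426 * d + 2 * p) := by ring
    _ ≤ _ := Nat.mul_le_mul_right _ h2

end Pool.Agent.P.MP_fcd401_al
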