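import Pool.Agent.P.MP_fcd401_al.Defs
import Pool.Agent.P.MP_fcd401_al.Count

set_option autoImplicit false

namespace Pool.Agent.P.MP_fcd401_al

open Equiv Finset

/-- product of two permutations -/
def pc (A Y : Type) : Perm A × Perm Y →* Perm (A × Y) where
  toFun z := Equiv.prodCongr z.1 z.2
  map_one' := by ext <;> simp
  map_mul' := by intro z z'; ext <;> simp

theorem pc_apply {A Y : Type} (g : Perm A) (h : Perm Y) (z : A × Y) :
    pc A Y (g, h) z = (g z.1, h z.2) := rfl

/-- fibrewise permutation in the second coordinate -/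
def fibR (A Y : Type) : (A → Perm Y) →* Perm (A × Y) where
  toFun e := Equiv.prodCongrRight e
  map_one' := by ext <;> simp
  map_mul' := by intro z z'; ext <;> simp

theorem fibR_apply {A Y : Type} (e : A → Perm Y) (z : A × Y) :
    fibR A Y e z = (z.1, e z.1 z.2) := rfl

/-- fibrewise permutation in the first coordinate -/
def fibL (A Y : Type) : (Y → Perm A) →* Perm (A × Y) where
  toFun e := Equiv.prodCongrLeft e
  map_one' := by ext <;> simp
  map_mul' := by intro z z'; ext <;> simp

theorem fibL_apply {A Y : Type} (e : Y → Perm A) (z : A × Y) :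
    fibL A Y e z = (e z.2 z.1, z.2) := rfl

theorem fibL_injective {A Y : Type} : Function.Injective (fibL A Y) := by
  intro e e' h
  ext y k
  exact congrArg Prod.fst (DFunLike.congr_fun h (k, y))

theorem fibL_comm {A Y : Type} (e : Y → Perm A) (g : Perm Y) (h : ∀ y, e (g y) = e y) :
    pc A Y (1, g) * fibL A Y e = fibL A Y e * pc A Y (1, g) := by
  ext z <;> simp [pc_apply, fibL_apply, h]

theorem GoodT.map {β : ℝ} {Γ Δ : Type} [Group Γ] [Group Δ] (f : Γ →* Δ) {t a q : Γ}
    (h : GoodT β t a q) : GoodT β (f t) (f a) (f q) where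
  q4 := by rw [← map_pow, h.q4, map_one]
  a3 := by rw [← map_pow, h.a3, map_one]
  hw := by
    intro L l h1 h2 h3
    rw [← map_mul, ← map_wd, h.hw L l h1 h2 h3, map_one]

theorem wd_one {Γ : Type} [Group Γ] (t a : Γ) (l : List ℕ) : wd t a 1 l = 1 := by
  induction l with
  | nil => rfl
  | cons j l ih => simp [wd, tr, ih]

theorem GoodT.prod {β : ℝ} {Γ Δ : Type} [Group Γ] [Group Δ] (r : Γ) {t a q : Δ}
    (h : GoodT β t a q) : GoodT β (r, t) ((1 : Γ), a) ((1 : Γ), q) where
  q4 := by simp [h.q4]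
  a3 := by simp [h.a3]
  hw := by
    intro L l h1 h2 h3
    ext
    · have := map_wd (MonoidHom.fst Γ Δ) (r, t) (1, a) ((1, q) * (1, q)) l
      simpa [wd_one] using this
    · have := map_wd (MonoidHom.snd Γ Δ) (r, t) (1, a) ((1, q) * (1, q)) l
      simpa [h.hw L l h1 h2 h3] using this

theorem cj_prod {Γ Δ : Type} [Group Γ] [Group Δ] (r : Γ) (t g : Δ) (i : ℤ) :
    cj (r, t) ((1 : Γ), g) i = (1, cj t g i) := by
  ext <;> simp [cj]

def q0 : Perm (Fin 6) := ⟨![1, 2, 3, 0, 4, 5], ![3, 0, 1, 2, 4, 5], by decide, by decide⟩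
def c0 : Perm (Fin 6) := ⟨![1, 2, 0, 3, 4, 5], ![2, 0, 1, 3, 4, 5], by decide, by decide⟩
def w0 : Perm (Fin 6) := ⟨![2, 3, 4, 5, 0, 1], ![4, 5, 0, 1, 2, 3], by decide, by decide⟩

variable (d p : ℕ)

def tY : Perm (ZMod d × Fin 6) := pc _ _ (Equiv.addRight (p : ZMod d), 1)
def aloc (j : ZMod d) : Perm (Fin 6) := if j.val + p < d then c0 else 1
def aY : Perm (ZMod d × Fin 6) := fibR _ _ (aloc d p)
def qY : Perm (ZMod d × Fin 6) := fibR _ _ (fun _ => q0)
def wY : Perm (ZMod d × Fin 6) := fibR _ _ (fun _ => w0)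

theorem cj_tY (e : ZMod d → Perm (Fin 6)) (i : ℤ) :
    cj (tY d p) (fibR _ _ e) i = fibR _ _ (fun j => e (j + i • (p : ZMod d))) := by
  have h1 : tY d p ^ i = pc _ _ (Equiv.addRight (i • (p : ZMod d)), 1) := by
    rw [tY, ← map_zpow]
    simp
  unfold cj
  rw [h1, mul_assoc, inv_mul_eq_iff_eq_mul]
  ext z <;> simp [pc_apply, fibR_apply]

theorem window [NeZero d] (hp : p ≤ d) (j : ZMod d) (L : ℕ) :
    d * #((range L).filter fun i : ℕ => ¬ ((j + (i : ℤ) • (p : ZMod d)).val + p < d)) +
      (j + (L : ℤ) • (p : ZMod d)).val = j.val + L * p := by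
  induction L with
  | zero => simp
  | succ L ih =>
    have e : j + ((L + 1 : ℕ) : ℤ) • (p : ZMod d) = (j + (L : ℤ) • (p : ZMod d)) + (p : ZMod d) := by
      push_cast
      rw [add_smul, one_smul, add_assoc]
    rw [e, range_add_one, filter_insert]
    set y := j + (L : ℤ) • (p : ZMod d) with hy
    rw [ZMod.val_add y, ZMod.val_natCast, Nat.add_mod_mod]
    have hv : y.val < d := ZMod.val_lt y
    split_ifs with h
    · rw [Nat.mod_eq_of_lt (by omega), add_mul]
      omega
    · rw [card_insert_of_notMem (fun h => by simpa using (mem_filter.1 h).1),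
        Nat.mod_eq_sub_mod (by omega), Nat.mod_eq_of_lt (by omega)]
      rw [mul_add, add_mul]
      omega

theorem wd_model (l : List ℕ) : ∃ f : ZMod d → Perm (Fin 6),
    wd (tY d p) (aY d p) (qY d * qY d) l = fibR _ _ f ∧ ∀ j, (f j = q0 * q0 ∨ f j = 1) ∧
      ((∃ i ∈ l, (j + (i : ℤ) • (p : ZMod d)).val + p < d) → f j = 1) := by
  induction l with
  | nil =>
    refine ⟨fun _ => q0 * q0, ?_, fun j => ⟨Or.inl rfl, by simp⟩⟩
    rw [wd, qY, ← map_mul]
    rfl
  | cons i l ih =>
    obtain ⟨f, h1, h2⟩ := ih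
    refine ⟨fun j => tr (aloc d p (j + (i : ℤ) • (p : ZMod d))) (f j), ?_, ?_⟩
    · rw [wd, h1, aY, cj_tY]
      simp only [tr, ← map_mul, ← map_inv]
      rfl
    · intro j
      have t1 : tr c0 (q0 * q0) = 1 := by decide
      have t2 : tr 1 (q0 * q0) = q0 * q0 := by decide
      have t3 : ∀ g : Perm (Fin 6), tr g 1 = 1 := by intro g; simp [tr]
      by_cases hi : (j + (i : ℤ) • (p : ZMod d)).val + p < d
      · have : tr (aloc d p (j + (i : ℤ) • (p : ZMod d))) (f j) = 1 := by
          rw [aloc, if_pos hi]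
          rcases (h2 j).1 with h | h <;> rw [h]
          · exact t1
          · exact t3 _
        exact ⟨Or.inr this, fun _ => this⟩
      · have : tr (aloc d p (j + (i : ℤ) • (p : ZMod d))) (f j) = f j := by
          rw [aloc, if_neg hi]
          rcases (h2 j).1 with h | h <;> rw [h]
          · exact t2
          · exact t3 _
        simp only [this]
        refine ⟨(h2 j).1, ?_⟩
        rintro ⟨i', hi', h⟩
        rcases List.mem_cons.1 hi' with rfl | hi'
        · exact absurd h hi
        · exact (h2 j).2 ⟨i', hi', h⟩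

theorem goodT_model [NeZero d] (hp : p ≤ d) (β : ℝ) (hβ : (p : ℝ) ≤ β * d) :
    GoodT β (tY d p) (aY d p) (qY d) where
  q4 := by
    rw [qY, ← map_pow]
    have : (fun _ : ZMod d => q0) ^ 4 = 1 := by
      funext j
      show q0 ^ 4 = 1
      decide
    rw [this, map_one]
  a3 := by
    rw [aY, ← map_pow]
    have : aloc d p ^ 3 = 1 := by
      funext j
      show aloc d p j ^ 3 = 1
      unfold aloc
      split_ifs
      · decide
      · simp
    rw [this, map_one]
  hw := by
    intro L l h1 h2 h3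
    obtain ⟨f, e, hf⟩ := wd_model d p l
    have : f = 1 := by
      funext j
      refine (hf j).2 ?_
      by_contra hc
      have hsub : l.toFinset ⊆
          (range L).filter fun i : ℕ => ¬ ((j + (i : ℤ) • (p : ZMod d)).val + p < d) := by
        intro i hi
        rw [List.mem_toFinset] at hi
        exact mem_filter.2 ⟨mem_range.2 (h2 i hi), fun h => hc ⟨i, hi, h⟩⟩
      have h4 := card_le_card hsub
      rw [List.toFinset_card_of_nodup h1] at h4
      have h5 := window d p hp j L
      have hv : j.val < d := ZMod.val_lt j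
      have h6 : d * l.length ≤ d + L * p := by
        have := Nat.mul_le_mul_left d h4
        omega
      have h7 : (d : ℝ) * l.length ≤ d + L * p := by exact_mod_cast h6
      have hd : (0 : ℝ) < d := by exact_mod_cast Nat.pos_of_ne_zero (NeZero.ne d)
      have h8 := mul_lt_mul_of_pos_left h3 hd
      have h9 := mul_le_mul_of_nonneg_left hβ (Nat.cast_nonneg (α := ℝ) L)
      nlinarith
    rw [e, this, map_one]

end Pool.Agent.P.MP_fcd401_al
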