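import Pool.Agent.P.MP_fcd401_al.Defs
import Pool.Agent.P.MP_fcd401_al.Gadget

set_option autoImplicit false

namespace Pool.Agent.P.MP_fcd401_al

open Equiv Finset

variable {O : Type} [Fintype O] [DecidableEq O]

/-- generating set of the normal subgroup -/
def lgen (t a q : Perm O) : Set (Perm O) := {g | ∃ i : ℤ, g = cj t a i ∨ g = cj t q i}

/-- orbit representative for the normal subgroup -/
noncomputable def rho (t a q : Perm O) : O → O := rep (Subgroup.closure (lgen t a q))

omit [Fintype O] [DecidableEq O] in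
theorem cj_a_mem (t a q : Perm O) (i : ℤ) : cj t a i ∈ Subgroup.closure (lgen t a q) :=
  Subgroup.subset_closure ⟨i, Or.inl rfl⟩

omit [Fintype O] [DecidableEq O] in
theorem a_mem (t a q : Perm O) : a ∈ Subgroup.closure (lgen t a q) :=
  Subgroup.subset_closure ⟨0, Or.inl (by simp [cj])⟩

omit [Fintype O] [DecidableEq O] in
theorem q_mem (t a q : Perm O) : q ∈ Subgroup.closure (lgen t a q) :=
  Subgroup.subset_closure ⟨0, Or.inr (by simp [cj])⟩

omit [Fintype O] [DecidableEq O] in
theorem conj_mem (t a q : Perm O) (k : ℤ) (g : Perm O) (hg : g ∈ Subgroup.closure (lgen t a q)) :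
    cj t g k ∈ Subgroup.closure (lgen t a q) := by
  induction hg using Subgroup.closure_induction with
  | mem g hg =>
    obtain ⟨i, rfl | rfl⟩ := hg
    · refine Subgroup.subset_closure ⟨i + k, Or.inl ?_⟩
      simp only [cj, zpow_add]; group
    · refine Subgroup.subset_closure ⟨i + k, Or.inr ?_⟩
      simp only [cj, zpow_add]; group
  | one => simp [cj]
  | mul g h _ _ hg hh =>
    have : cj t (g * h) k = cj t g k * cj t h k := by simp only [cj]; group
    rw [this]; exact Subgroup.mul_mem _ hg hh
  | inv g _ hg =>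
    have : cj t g⁻¹ k = (cj t g k)⁻¹ := by simp only [cj]; group
    rw [this]; exact Subgroup.inv_mem _ hg

omit [Fintype O] [DecidableEq O] in
theorem rho_t (t a q : Perm O) (x y : O) (h : rho t a q x = rho t a q y) :
    rho t a q (t x) = rho t a q (t y) := by
  obtain ⟨g, hg, rfl⟩ := (rep_eq_iff _ _ _).1 h
  refine (rep_eq_iff _ _ _).2 ⟨cj t g (-1), conj_mem t a q _ g hg, ?_⟩
  simp [cj]

omit [Fintype O] [DecidableEq O] in
theorem rho_t_inv (t a q : Perm O) (x y : O) (h : rho t a q x = rho t a q y) :
    rho t a q (t⁻¹ x) = rho t a q (t⁻¹ y) := by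
  obtain ⟨g, hg, rfl⟩ := (rep_eq_iff _ _ _).1 h
  refine (rep_eq_iff _ _ _).2 ⟨cj t g 1, conj_mem t a q _ g hg, ?_⟩
  simp [cj]

theorem card_blk_t (t a q : Perm O) (x : O) :
    #(blk (rho t a q) (t x)) ≤ #(blk (rho t a q) x) := by
  refine card_le_card_of_injOn (fun y => t⁻¹ y) ?_ (fun _ _ _ _ h => t⁻¹.injective h)
  intro y hy
  simp only [mem_coe, mem_blk] at hy ⊢
  simpa using rho_t_inv t a q _ _ hy

theorem four_le_blk (t a q : Perm O) (hq : q ^ 4 = 1) (x : O) (hx : (q * q) x ≠ x) :
    4 ≤ #(blk (rho t a q) x) := by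
  have h4 : q (q (q (q x))) = x := by
    have := DFunLike.congr_fun hq x
    simpa [pow_succ] using this
  have h2 : q (q x) ≠ x := hx
  have h1 : q x ≠ x := fun h => h2 (by rw [h, h])
  have h3 : q (q (q x)) ≠ x := fun h => h1 (by rw [h] at h4; exact h4)
  have hr : ∀ y, rho t a q (q y) = rho t a q y := fun y => rep_apply _ q (q_mem t a q) y
  have hsub : ({x, q x, q (q x), q (q (q x))} : Finset O) ⊆ blk (rho t a q) x := by
    intro y hy
    simp only [mem_insert, mem_singleton] at hy
    rw [mem_blk]
    rcases hy with rfl | rfl | rfl | rfl <;> simp only [hr]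
  refine le_trans (le_of_eq ?_) (card_le_card hsub)
  symm
  rw [card_eq_four]
  refine ⟨x, q x, q (q x), q (q (q x)), h1.symm, h2.symm, h3.symm, ?_, ?_, ?_, rfl⟩
  · exact fun h => h1 (q.injective h).symm
  · exact fun h => h2 (q.injective h).symm
  · exact fun h => h1 (q.injective (q.injective h)).symm

theorem three_le_of_moved (g : Perm O) (hg : g ^ 3 = 1) (B : Finset O)
    (hB : ∀ y ∈ B, g y ∈ B) (y : O) (hy : y ∈ B) (hne : g y ≠ y) :
    3 ≤ #(B ∩ g.support) := by
  have h3 : g (g (g y)) = y := by
    have := DFunLike.congr_fun hg y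
    simpa [pow_succ] using this
  have h2 : g (g y) ≠ y := fun h => hne (by rw [h] at h3; exact h3)
  have hsub : ({y, g y, g (g y)} : Finset O) ⊆ B ∩ g.support := by
    intro z hz
    simp only [mem_insert, mem_singleton] at hz
    rw [mem_inter, Perm.mem_support]
    rcases hz with rfl | rfl | rfl
    · exact ⟨hy, hne⟩
    · exact ⟨hB _ hy, fun h => hne (g.injective h)⟩
    · exact ⟨hB _ (hB _ hy), fun h => hne (g.injective (g.injective h))⟩
  refine le_trans (le_of_eq ?_) (card_le_card hsub)
  symm
  rw [card_eq_three]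
  exact ⟨y, g y, g (g y), hne.symm, h2.symm, fun h => hne (g.injective h).symm, rfl⟩

theorem ineq_blocks (t a q : Perm O) (hq : q ^ 4 = 1) :
    20 * #(reps (rho t a q)) + 15 * #(q * q).support + #(big (rho t a q)) ≤
      20 * Fintype.card O := by
  set ρ := rho t a q with hρ
  have hid : ∀ x, ρ (ρ x) = ρ x := rep_rep _
  let S4 : Finset O := univ.filter fun x => #(blk ρ x) = 4
  let S0 : Finset O := univ.filter fun x => #(blk ρ x) < 4
  have h4 : 4 * #(reps ρ ∩ S4) ≤ #S4 := by
    refine mul_card_reps_le ρ hid S4 ?_ 4 ?_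
    · intro x hx y hy
      simp only [S4, mem_filter, mem_univ, true_and] at hx ⊢
      rw [blk_congr ρ hy, hx]
    · intro x hx
      simp only [S4, mem_filter, mem_univ, true_and] at hx
      omega
  have h5 : 5 * #(reps ρ ∩ big ρ) ≤ #(big ρ) := by
    refine mul_card_reps_le ρ hid (big ρ) ?_ 5 ?_
    · intro x hx y hy
      simp only [big, mem_filter, mem_univ, true_and] at hx ⊢
      rw [blk_congr ρ hy]; exact hx
    · intro x hx
      simpa only [big, mem_filter, mem_univ, true_and] using hx
  have h0 : #(reps ρ ∩ S0) ≤ #S0 := card_le_card inter_subset_right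
  have hR : #(reps ρ) ≤ #(reps ρ ∩ S0) + #(reps ρ ∩ S4) + #(reps ρ ∩ big ρ) := by
    refine le_trans (card_le_card ?_) ((card_union_le _ _).trans
      (Nat.add_le_add_right (card_union_le _ _) _))
    intro x hx
    simp only [mem_union, mem_inter, hx, true_and, S0, S4, big, mem_filter, mem_univ]
    omega
  have hn : #S0 + #S4 + #(big ρ) ≤ Fintype.card O := by
    have d1 : Disjoint S0 S4 := by
      rw [disjoint_left]
      intro x h1 h2
      simp only [S0, S4, mem_filter, mem_univ, true_and] at h1 h2
      omega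
    have d2 : Disjoint (S0 ∪ S4) (big ρ) := by
      rw [disjoint_left]
      intro x h1 h2
      simp only [S0, S4, big, mem_union, mem_filter, mem_univ, true_and] at h1 h2
      omega
    rw [← card_union_of_disjoint d1, ← card_union_of_disjoint d2]
    exact card_le_univ _
  have hs : #(q * q).support ≤ #S4 + #(big ρ) := by
    refine le_trans (card_le_card ?_) (card_union_le _ _)
    intro x hx
    have := four_le_blk t a q hq x (Perm.mem_support.1 hx)
    simp only [mem_union, S4, big, mem_filter, mem_univ, true_and]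
    rw [← hρ] at this
    omega
  omega

theorem ineq_a (a : Perm O) (ha : a ^ 3 = 1) :
    3 * #(reps (rep (Subgroup.closure {a}))) + 2 * #a.support ≤ 3 * Fintype.card O := by
  set ρ := rep (Subgroup.closure ({a} : Set (Perm O))) with hρ
  have hid : ∀ x, ρ (ρ x) = ρ x := rep_rep _
  have hma : a ∈ Subgroup.closure ({a} : Set (Perm O)) := Subgroup.subset_closure rfl
  have h3 : 3 * #(reps ρ ∩ a.support) ≤ #a.support := by
    refine mul_card_reps_le ρ hid _ ?_ 3 ?_
    · intro x hx y hy
      obtain ⟨g, hg, rfl⟩ := (rep_eq_iff _ _ _).1 hy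
      obtain ⟨k, rfl⟩ := Subgroup.mem_closure_singleton.1 hg
      exact Perm.zpow_apply_mem_support.2 hx
    · intro x hx
      refine (three_le_of_moved a ha (blk ρ x) ?_ x ((mem_blk _ _ _).2 rfl)
        (Perm.mem_support.1 hx)).trans (card_le_card inter_subset_left)
      intro y hy
      rw [mem_blk] at hy ⊢
      rw [← hy]
      exact rep_apply _ a hma y
  have hR : #(reps ρ) ≤ #(reps ρ ∩ a.support) + #(a.supportᶜ) := by
    refine le_trans (card_le_card ?_) (card_union_le _ _)
    intro x hx
    simp only [mem_union, mem_inter, hx, true_and, mem_compl]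
    exact em _
  have := card_add_card_compl a.support
  omega

theorem wd_on_blk (t a q : Perm O) (hq : q ^ 4 = 1) (x : O) (l : List ℕ)
    (hl : ∀ j ∈ l, ∀ y ∈ blk (rho t a q) x, cj t a j y = y) :
    ∀ y ∈ blk (rho t a q) x, wd t a (q * q) l y = (q * q) y := by
  have hu : ∀ y ∈ blk (rho t a q) x, (q * q) y ∈ blk (rho t a q) x := by
    intro y hy
    rw [mem_blk] at hy ⊢
    rw [← hy]
    exact rep_apply _ _ (Subgroup.mul_mem _ (q_mem t a q) (q_mem t a q)) y
  have hu2 : ∀ y, (q * q) ((q * q) y) = y := by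
    intro y
    have := DFunLike.congr_fun hq y
    simpa [pow_succ] using this
  induction l with
  | nil => intro y _; rfl
  | cons j l ih =>
    intro y hy
    have ih' := ih (fun j hj => hl j (List.mem_cons_of_mem _ hj))
    have hg := hl j List.mem_cons_self
    have hg' : ∀ y ∈ blk (rho t a q) x, (cj t a j)⁻¹ y = y := by
      intro y hy
      rw [Perm.inv_eq_iff_eq]
      exact (hg y hy).symm
    simp only [wd, tr, Perm.mul_apply (wd t a (q * q) l * _), Perm.mul_apply (wd t a (q * q) l),
      Perm.mul_apply (cj t a j * _), Perm.mul_apply (cj t a j * _ * _),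
      Perm.mul_apply (cj t a j * _ * _ * _), Perm.mul_apply (cj t a j)]
    rw [hg' y hy, hg' y hy, ih' y hy, hg _ (hu y hy), hg _ (hu y hy), hg' _ (hu y hy),
      ih' _ (hu y hy), hu2, hg y hy, ih' y hy]

theorem ineq_supp (β : ℝ) (t a q : Perm O) (h : GoodT β t a q) :
    3 * (1 - β) * #((q * q).support \ big (rho t a q)) ≤ 4 * (#a.support : ℝ) := by
  classical
  set ρ := rho t a q with hρ
  set F := (q * q).support \ big ρ with hF
  have key : ∀ L : ℕ, 3 * ((1 - β) * L - 1) * #F ≤ 4 * (#a.support : ℝ) * L := by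
    intro L
    have h1 : ∀ x ∈ F, 3 * ((1 - β) * L - 1) ≤
        ((∑ j ∈ range L, #(blk ρ x ∩ (cj t a (j : ℕ)).support) : ℕ) : ℝ) := by
      intro x hx
      let J := (range L).filter fun j : ℕ => ∀ y ∈ blk ρ x, cj t a j y = y
      have hJ : (#J : ℝ) ≤ β * L + 1 := by
        by_contra hc
        push Not at hc
        have e := h.hw L J.toList (nodup_toList _)
          (fun j hj => mem_range.1 (mem_filter.1 (mem_toList.1 hj)).1) (by simpa using hc)
        have e2 := wd_on_blk t a q h.q4 x J.toList
          (fun j hj => (mem_filter.1 (mem_toList.1 hj)).2) x ((mem_blk _ _ _).2 rfl)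
        rw [e] at e2
        exact (Perm.mem_support.1 (mem_sdiff.1 hx).1) e2.symm
      let J' := (range L).filter fun j : ℕ => ¬ ∀ y ∈ blk ρ x, cj t a j y = y
      have hJJ : #J + #J' = L := by
        rw [card_filter_add_card_filter_not, card_range]
      have h3 : 3 * #J' ≤ ∑ j ∈ range L, #(blk ρ x ∩ (cj t a (j : ℕ)).support) := by
        refine le_trans ?_ (sum_le_sum_of_subset (filter_subset
          (fun j : ℕ => ¬ ∀ y ∈ blk ρ x, cj t a j y = y) _))
        rw [mul_comm, ← smul_eq_mul]
        refine card_nsmul_le_sum _ _ _ ?_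
        intro j hj
        have hj2 := (mem_filter.1 hj).2
        push Not at hj2
        obtain ⟨y, hy, hne⟩ := hj2
        refine three_le_of_moved _ ?_ _ ?_ y hy hne
        · have : cj t a j ^ 3 = cj t (a ^ 3) j := by simp [cj, pow_succ, mul_assoc]
          rw [this, h.a3]; simp [cj]
        · intro z hz
          rw [mem_blk] at hz ⊢
          rw [← hz]
          exact rep_apply _ _ (cj_a_mem t a q j) z
      have h4 : (3 : ℝ) * #J' ≤
          ((∑ j ∈ range L, #(blk ρ x ∩ (cj t a (j : ℕ)).support) : ℕ) : ℝ) := by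
        exact_mod_cast h3
      have h5 : (#J : ℝ) + #J' = L := by exact_mod_cast hJJ
      linarith
    have h2 : ∀ j : ℕ, ∑ x ∈ F, #(blk ρ x ∩ (cj t a j).support) ≤ 4 * #a.support := by
      intro j
      have e0 : #(cj t a j).support = #a.support := by
        have := Perm.card_support_conj (σ := (t ^ (j : ℤ))⁻¹) (τ := a)
        rw [inv_inv] at this
        exact this
      have e1 : ∀ x, blk ρ x ∩ (cj t a j).support =
          (cj t a j).support.bipartiteAbove (fun x y => ρ y = ρ x) x := by
        intro x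
        ext y
        simp [mem_blk, bipartiteAbove, and_comm]
      simp only [e1]
      rw [sum_card_bipartiteAbove_eq_sum_card_bipartiteBelow, ← e0, mul_comm, ← smul_eq_mul]
      refine sum_le_card_nsmul _ _ _ ?_
      intro y _
      rcases (F.bipartiteBelow (fun x y => ρ y = ρ x) y).eq_empty_or_nonempty with he | ⟨x0, h0⟩
      · rw [he]; simp
      · rw [mem_bipartiteBelow] at h0
        have hsm : #(blk ρ x0) ≤ 4 := by
          have := (mem_sdiff.1 h0.1).2
          simp only [big, mem_filter, mem_univ, true_and] at this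
          omega
        refine le_trans (card_le_card ?_) hsm
        intro z hz
        rw [mem_bipartiteBelow] at hz
        rw [mem_blk, ← hz.2, h0.2]
    have h6 : ∑ x ∈ F, ∑ j ∈ range L, #(blk ρ x ∩ (cj t a (j : ℕ)).support) ≤
        4 * #a.support * L := by
      rw [sum_comm]
      refine (sum_le_card_nsmul _ _ _ (fun j _ => h2 j)).trans ?_
      simp [mul_comm]
    have h7 := card_nsmul_le_sum F _ _ h1
    rw [nsmul_eq_mul, ← Nat.cast_sum] at h7
    have h8 : ((∑ x ∈ F, ∑ j ∈ range L, #(blk ρ x ∩ (cj t a (j : ℕ)).support) : ℕ) : ℝ) ≤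
        4 * (#a.support : ℝ) * L := by exact_mod_cast h6
    linarith
  by_contra hc
  push Not at hc
  obtain ⟨L, hL⟩ := exists_nat_gt (3 * (#F : ℝ) / (3 * (1 - β) * #F - 4 * #a.support))
  rw [div_lt_iff₀ (by linarith)] at hL
  have := key L
  nlinarith

theorem exponent_le (β : ℝ) (h0 : 0 ≤ β) (h1 : β ≤ 1) (t a q : Perm O) (h : GoodT β t a q) :
    70 * #(reps (rho t a q)) + #(reps (rep (Subgroup.closure {a}))) +
      106 * min (Fintype.card O / 3) (#(q * q).support / 2) + 3 * #(big (rho t a q)) +
      Fintype.card O ≤ ⌊(72 + β / 3) * Fintype.card O⌋₊ := by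
  apply Nat.le_floor
  have a1 := ineq_blocks t a q h.q4
  have a2 := ineq_a a h.a3
  have a3 := ineq_supp β t a q h
  have a4 : #(q * q).support ≤ #((q * q).support \ big (rho t a q)) + #(big (rho t a q)) :=
    card_le_card_sdiff_add_card
  set Z := min (Fintype.card O / 3) (#(q * q).support / 2) with hZ
  have a5 : 3 * Z ≤ Fintype.card O := by omega
  have a6 : 2 * Z ≤ #(q * q).support := by omega
  generalize #(reps (rho t a q)) = R at *
  generalize #(reps (rep (Subgroup.closure {a}))) = R' at *
  generalize #((q * q).support \ big (rho t a q)) = F at *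
  generalize #(big (rho t a q)) = b at *
  generalize #(q * q).support = σ at *
  generalize #a.support = sa at *
  generalize Fintype.card O = n at *
  have b1 : 20 * (R : ℝ) + 15 * σ + b ≤ 20 * n := by exact_mod_cast a1
  have b2 : 3 * (R' : ℝ) + 2 * sa ≤ 3 * n := by exact_mod_cast a2
  have b4 : (σ : ℝ) ≤ F + b := by exact_mod_cast a4
  have b5 : 3 * (Z : ℝ) ≤ n := by exact_mod_cast a5
  have b6 : 2 * (Z : ℝ) ≤ σ := by exact_mod_cast a6
  have b7 : (0 : ℝ) ≤ b := Nat.cast_nonneg _
  have c1 := mul_le_mul_of_nonneg_left b4 (sub_nonneg.2 h1)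
  have c2 := mul_le_mul_of_nonneg_left b6 (sub_nonneg.2 h1)
  have c3 := mul_le_mul_of_nonneg_left b5 h0
  have c4 := mul_nonneg h0 b7
  push_cast
  nlinarith

end Pool.Agent.P.MP_fcd401_al
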